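import Pool.Agent.Y226.ZE.PkgE
import Pool.Agent.Y226.ZM.Comb

/-!
# Combination of several primes, second version
-/

set_option autoImplicit false
set_option linter.unusedSectionVars false

open UpperHalfPlane H294ZP Polynomial

namespace Pool.Agent.Y226.ZE

open Pool.Agent.Y226 Pool.Agent.Y226.ZG Pool.Agent.Y226.ZM

/-- the hypotheses on a point of an unlikely intersection -/
structure Atyp2 {n k r : ℕ} (X : Fin n → ℂ) (U : Fin k → QA)
    (cls : Fin n → Option (Fin r)) (M : Submodule ℤ (Fin k → ℤ)) : Prop where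
  rel : ∀ j l c, j ≠ l → cls j = some c → cls l = some c → ∃ (w w' : ℍ) (a b c' d : ℤ),
    0 < a * d - b * c' ∧ (w' : ℂ) * (c' * w + d) = a * w + b ∧ X j = jj w ∧ X l = jj w'
  tor : ∀ a ∈ M, ∃ o : ℕ, 0 < o ∧ (∏ l, U l ^ a l) ^ o = 1

section

variable {n k K : ℕ} {I : Ideal (MvPolynomial (Fin (n + k)) QA)} {Γ : Set ℂ} {W : ℕ}
  {p : Fin K → ℕ} {lam mu : Fin n → ℚ} {nu : Fin k → ℚ} {lamu : Fin K → Fin k → ℚ}

/-- the combination of the primes -/
theorem comb2 (hK3 : 3 ≤ K) (hK : k * (k - 1) ≤ K) {c : Fin K → Fin k → ℤ} (hc : Indep c)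
    {bS : Finset (Fin K) → Fin k → ℤ} (hbS : ∀ S, Bv W (bS S))
    (hbS' : ∀ S, (∃ a : Fin k → ℤ, a ≠ 0 ∧ ∀ i ∈ S, ∑ l, a l * c i l = 0) →
      bS S ≠ 0 ∧ ∀ i ∈ S, ∑ l, bS S l * c i l = 0) (hp : ∀ i, (p i).Prime)
    (hpi : Function.Injective p) {f : Fin K → ℕ} (hf : ∀ i, 0 < f i)
    (hval : ∀ i l, padicValRat (p i) (nu l) = (f i : ℤ) * c i l)
    (pk : ∀ i, Pkg I Γ W (p i) (Fin.append lam (lamu i)) (Fin.append mu (fun _ => 0))
      (Fin.append (fun _ => 1) nu)) :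
    ∃ G : ℕ, ∀ P : Fin (n + k) → QA, OnV I P → ∀ (r : ℕ) (cls : Fin n → Option (Fin r))
      (M : Submodule ℤ (Fin k → ℤ)), r + 2 ≤ n + Module.finrank ℤ M → 1 ≤ Module.finrank ℤ M →
      (∀ i j, cls j = none → ∃ j' : Fin n, (pk i).bad P (Fin.castAdd k j')) →
      Atyp2 (fun j => rA ((lam j : QA) * P (Fin.castAdd k j) + mu j))
        (fun l => (nu l : QA) * P (Fin.natAdd n l)) cls M →
      (∃ j l : Fin n, j ≠ l ∧ ∃ N' : ℕ, 0 < N' ∧ N' ≤ G ∧
        PsiE ιZ (mP N') (mD N') (rA ((lam j : QA) * P (Fin.castAdd k j) + mu j))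
          (rA ((lam l : QA) * P (Fin.castAdd k l) + mu l)) = 0) ∨
      ∃ b : Fin k → ℤ, Bv W b ∧ b ≠ 0 ∧ ∃ o : ℕ, 0 < o ∧ o ≤ G ∧
        (∏ l, ((nu l : QA) * P (Fin.natAdd n l)) ^ b l) ^ o = 1 := by
  classical
  set GG := ∑ i, (pk i).G with hGG
  have hGi : ∀ i, (pk i).G ≤ GG := fun i =>
    Finset.single_le_sum (f := fun i => (pk i).G) (fun _ _ => Nat.zero_le _) (Finset.mem_univ i)
  refine ⟨GG + GG * GG + W * W * GG ^ 2 * (W * W * GG ^ 2), ?_⟩
  intro P hP r cls M hr hM hconst hA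
  set X : Fin n → ℂ := fun j => rA ((lam j : QA) * P (Fin.castAdd k j) + mu j) with hX
  set U : Fin k → QA := fun l => (nu l : QA) * P (Fin.natAdd n l) with hU
  -- the bad coordinates
  have hne : ∀ (j : Fin n) (l : Fin k), Fin.castAdd k j ≠ Fin.natAdd n l := by
    intro j l h
    have := congrArg Fin.val h
    simp at this
    omega
  have hninj : ∀ l l' : Fin k, Fin.natAdd n l = Fin.natAdd n l' → l = l' := by
    intro l l' h
    have := congrArg Fin.val h
    simp at this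
    exact Fin.ext this
  have hval' : ∀ i (a : Fin k → ℤ), ∑ j, ext n a j *
      padicValRat (p i) ((Fin.append (fun _ => 1) nu : Fin (n + k) → ℚ) j) =
      f i * ∑ l, a l * c i l := by
    intro i a
    rw [sum_ext, Finset.mul_sum]
    refine Finset.sum_congr rfl fun l _ => ?_
    rw [Fin.append_right, hval]
    ring
  have hprodU : ∀ a : Fin k → ℤ, ∏ j, ((((Fin.append (fun _ => 1) nu : Fin (n + k) → ℚ) j : ℚ) : QA)
      * P j) ^ ext n a j = ∏ l, U l ^ a l := by
    intro a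
    rw [prod_ext (fun j => (((Fin.append (fun _ => 1) nu : Fin (n + k) → ℚ) j : ℚ) : QA) * P j)]
    refine Finset.prod_congr rfl fun l _ => ?_
    rw [Fin.append_right]
  have hXl : ∀ i j, rA ((((Fin.append lam (lamu i) : Fin (n + k) → ℚ) (Fin.castAdd k j) : ℚ) : QA) *
      P (Fin.castAdd k j) + (((Fin.append mu (fun _ => 0) : Fin (n + k) → ℚ) (Fin.castAdd k j) : ℚ) : QA))
      = X j := by
    intro i j
    rw [Fin.append_left, Fin.append_left]
  -- orthogonality
  have horth : ∀ i, ∀ a : Fin k → ℤ, (∃ o : ℕ, 0 < o ∧ (∏ l, U l ^ a l) ^ o = 1) →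
      (∀ l, a l ≠ 0 → ¬ (pk i).bad P (Fin.natAdd n l)) → ∑ l, a l * c i l = 0 := by
    rintro i a ⟨o, ho, h1⟩ ha
    have h2 := (pk i).orth P hP (ext n a) (ext_supp ha) o ho (by rw [hprodU]; exact h1)
    rw [hval'] at h2
    rcases mul_eq_zero.1 h2 with h3 | h3
    · have := hf i
      exact absurd h3 (by exact_mod_cast this.ne')
    · exact h3
  set S : Finset (Fin K) := Finset.univ.filter (fun i => ∀ l, ¬ (pk i).bad P (Fin.natAdd n l))
    with hSdef
  have hS : ∀ i ∈ S, ∀ l, ¬ (pk i).bad P (Fin.natAdd n l) := fun i hi => (Finset.mem_filter.1 hi).2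
  have hSc : ∀ i ∈ Sᶜ, ∃ l, (pk i).bad P (Fin.natAdd n l) := by
    intro i hi
    rw [Finset.mem_compl, Finset.mem_filter] at hi
    push Not at hi
    exact hi (Finset.mem_univ i)
  have hcard : S.card + Sᶜ.card = K := by
    rw [Finset.card_add_card_compl, Fintype.card_fin]
  -- the rank is at most one
  have hM1 : Module.finrank ℤ M ≤ 1 := by
    by_contra hcon
    push Not at hcon
    obtain ⟨g, hg⟩ := exists_linearIndependent_of_le_finrank (R := ℤ) (M := M) (n := 2) (by omega)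
    have hind : ∀ s t : ℤ, s • (g 0 : Fin k → ℤ) + t • (g 1 : Fin k → ℤ) = 0 → s = 0 ∧ t = 0 := by
      intro s t hst
      rw [Fintype.linearIndependent_iff] at hg
      have h1 := hg ![s, t] (by
        rw [Fin.sum_univ_two]
        exact Subtype.ext hst)
      exact ⟨h1 0, h1 1⟩
    have hkey : ∀ S' : Finset (Fin K), k ≤ S'.card + 1 → (∀ a ∈ M, ∀ i ∈ S', ∑ l, a l * c i l = 0) →
        False := by
      intro S' hS' hor
      have h1 := hc.prop hS' (hor _ (g 0).2) (hor _ (g 1).2)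
      have h2 : ∀ l, (g 1 : Fin k → ℤ) l = 0 ∧ (-(g 0 : Fin k → ℤ) l) = 0 := by
        intro l
        refine hind _ _ ?_
        funext l'
        have := h1 l l'
        simp only [Pi.add_apply, Pi.smul_apply, smul_eq_mul, Pi.zero_apply]
        linarith
      have h3 := hind 0 1 (by
        funext l'
        simp [(h2 l').1])
      exact one_ne_zero h3.2
    by_cases h1 : k ≤ S.card + 1
    · exact hkey S h1 fun a ha i hi => horth i a (hA.tor a ha) fun l _ => hS i hi l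
    · push Not at h1
      haveI : Nonempty (Fin k) := ⟨⟨0, by omega⟩⟩
      choose! lb hlb using hSc
      obtain ⟨l, -, hl⟩ := Finset.exists_lt_card_fiber_of_mul_lt_card_of_maps_to
        (s := Sᶜ) (t := (Finset.univ : Finset (Fin k))) (f := lb) (n := k - 2)
        (fun _ _ => Finset.mem_univ _) (by
          rw [Finset.card_univ, Fintype.card_fin]
          obtain ⟨k', rfl⟩ : ∃ k', k = k' + 2 := ⟨k - 2, by omega⟩
          have e1 : k' + 2 - 2 = k' := by omega
          have e2 : k' + 2 - 1 = k' + 1 := by omega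
          rw [e1]
          rw [e2] at hK
          nlinarith)
      set S' := Sᶜ.filter (fun i => lb i = l) with hS'
      have hS'k : k ≤ S'.card + 1 := by omega
      have hor : ∀ a ∈ M, a l = 0 → a = 0 := by
        intro a ha hal
        refine hc S' hS'k l a hal fun i hi => ?_
        obtain ⟨hi1, hi2⟩ := Finset.mem_filter.1 hi
        refine horth i a (hA.tor a ha) fun l' hl' hbad => ?_
        have h2 := (pk i).one P hP _ _ hbad (hlb i hi1)
        rw [hi2] at h2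
        have h3 := hninj _ _ h2
        rw [h3] at hl'
        exact hl' hal
      have h2 := hor ((g 1 : Fin k → ℤ) l • (g 0 : Fin k → ℤ) + (-(g 0 : Fin k → ℤ) l) • (g 1 : Fin k → ℤ))
        (M.add_mem (M.smul_mem _ (g 0).2) (M.smul_mem _ (g 1).2)) (by
          simp only [Pi.add_apply, Pi.smul_apply, smul_eq_mul]
          ring)
      have h3 := hind _ _ h2
      have h4 := hor _ (g 1).2 h3.1
      have h5 := hind 0 1 (by rw [h4]; simp)
      exact one_ne_zero h5.2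
  have hrn : r + 1 ≤ n := by omega
  -- a relation
  obtain ⟨a, haM, ha0⟩ : ∃ a ∈ M, a ≠ 0 := by
    by_contra hcon
    push Not at hcon
    have h1 : M = ⊥ := (Submodule.eq_bot_iff M).2 hcon
    rw [h1, finrank_bot] at hM
    omega
  -- the pair of isogenous coordinates
  have hpair : (∀ j, cls j ≠ none) → ∃ j l : Fin n, j ≠ l ∧ ∃ (w w' : ℍ) (a b c' d : ℤ),
      0 < a * d - b * c' ∧ (w' : ℂ) * (c' * w + d) = a * w + b ∧ X j = jj w ∧ X l = jj w' := by
    intro hno
    obtain ⟨j, -, l, -, hjl, cc, hc1, hc2⟩ := coll cls Finset.univ (by simpa using hrn)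
      (fun x _ => hno x)
    exact ⟨j, l, hjl, hA.rel j l cc hjl hc1 hc2⟩
  by_cases hSc2 : 2 ≤ Sᶜ.card
  · -- two primes where a torus coordinate is bad
    left
    obtain ⟨i, hi, i', hi', hii'⟩ := Finset.one_lt_card.1 (show 1 < Sᶜ.card by omega)
    obtain ⟨l₁, hl₁⟩ := hSc i hi
    obtain ⟨l₂, hl₂⟩ := hSc i' hi'
    have hno : ∀ j, cls j ≠ none := fun j hj => by
      obtain ⟨j', hj'⟩ := hconst i j hj
      exact hne j' l₁ ((pk i).one P hP _ _ hj' hl₁)
    obtain ⟨j, l, hjl, w, w', a', b', c', d, hdet, hww, hXj, hXl'⟩ := hpair hno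
    have hΨex : ∃ N₀ : ℕ, 0 < N₀ ∧ PsiE ιZ (mP N₀) (mD N₀) (jj w) (jj w') = 0 := by
      obtain ⟨N, hN⟩ : ∃ N : ℕ, (N : ℤ) = a' * d - b' * c' :=
        ⟨(a' * d - b' * c').toNat, by omega⟩
      have hN0 : 0 < N := by
        have : (0 : ℤ) < N := by rw [hN]; exact hdet
        exact_mod_cast this
      obtain ⟨-, -, -, -, -, -, -, -, -, -, h5⟩ := modular_spec N hN0
      exact ⟨N, hN0, h5 w w' a' b' c' d hN.symm hww⟩
    set N₀ := Nat.find hΨex with hN₀
    obtain ⟨hN₀0, hN₀Ψ⟩ := Nat.find_spec hΨex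
    have hmin : ∀ N', 0 < N' → PsiE ιZ (mP N') (mD N') (jj w) (jj w') = 0 → N₀ ≤ N' :=
      fun N' h1 h2 => Nat.find_min' hΨex ⟨h1, h2⟩
    have hgood : ∀ (i : Fin K) (l₁ : Fin k), (pk i).bad P (Fin.natAdd n l₁) → ∀ j : Fin n,
        ¬ (pk i).bad P (Fin.castAdd k j) := fun i l₁ h1 j h2 =>
      hne j l₁ ((pk i).one P hP _ _ h2 h1)
    obtain ⟨A₁, B₁, g₁, s₁, hA₁, hB₁, hAW₁, hBW₁, hg₁, -, hN₁, hb₁⟩ := (pk i).level P hP
      (Fin.castAdd k j) (Fin.castAdd k l) (hgood i l₁ hl₁ j) (hgood i l₁ hl₁ l) w w'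
      (by rw [hXl]; exact hXj) (by rw [hXl]; exact hXl') N₀ hN₀0 hN₀Ψ hmin
    obtain ⟨A₂, B₂, g₂, s₂, hA₂, hB₂, hAW₂, hBW₂, hg₂, -, hN₂, hb₂⟩ := (pk i').level P hP
      (Fin.castAdd k j) (Fin.castAdd k l) (hgood i' l₂ hl₂ j) (hgood i' l₂ hl₂ l) w w'
      (by rw [hXl]; exact hXj) (by rw [hXl]; exact hXl') N₀ hN₀0 hN₀Ψ hmin
    have h1 := level_two (hp i) (hp i') (fun h => hii' (hpi h)) hN₁ hN₂ hAW₁ hBW₁
      ((hb₁ ⟨_, hl₁⟩).trans (hGi i)) hAW₂ hBW₂ ((hb₂ ⟨_, hl₂⟩).trans (hGi i')) hA₂ hB₂ hg₂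
    refine ⟨j, l, hjl, N₀, hN₀0, h1.trans (Nat.le_add_left _ _), ?_⟩
    show PsiE ιZ (mP N₀) (mD N₀) (X j) (X l) = 0
    rw [hXj, hXl']
    exact hN₀Ψ
  · -- the exponent vector is known
    have hScard : K ≤ S.card + 1 := by omega
    have hkS : k ≤ S.card + 1 := by
      rcases Nat.lt_or_ge k 2 with h | h
      · omega
      · obtain ⟨k', rfl⟩ : ∃ k', k = k' + 2 := ⟨k - 2, by omega⟩
        have e2 : k' + 2 - 1 = k' + 1 := by omega
        rw [e2] at hK
        nlinarith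
    have haor : ∀ i ∈ S, ∑ l, a l * c i l = 0 := fun i hi =>
      horth i a (hA.tor a haM) fun l _ => hS i hi l
    obtain ⟨hb0, hbor⟩ := hbS' S ⟨a, ha0, haor⟩
    set b := bS S with hb
    obtain ⟨o₀, ho₀, ho₀'⟩ := hA.tor a haM
    obtain ⟨o₁, ho₁, ho₁'⟩ := torsion_prop (hc.prop hkS haor hbor) ha0 ho₀ ho₀'
    set ρ := ∏ l, U l ^ b l with hρ
    set o := orderOf ρ with ho
    have ho0 : 0 < o := orderOf_pos_iff.2 (isOfFinOrder_iff_pow_eq_one.2 ⟨o₁, ho₁, ho₁'⟩)
    have hprim : IsPrimitiveRoot ρ o := IsPrimitiveRoot.orderOf ρ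
    have hbW := ext_Bv (n := n) (hbS S)
    have hbv : ∀ i ∈ S, ∑ j, ext n b j *
      padicValRat (p i) ((Fin.append (fun _ => 1) nu : Fin (n + k) → ℚ) j) = 0 := by
      intro i hi
      rw [hval', hbor i hi, mul_zero]
    by_cases hex : (∀ j, cls j ≠ none) ∧ ∃ i ∈ S, ∀ j, ¬ (pk i).bad P j
    · left
      obtain ⟨hno, i, hi, hall⟩ := hex
      obtain ⟨j, l, hjl, w, w', a', b', c', d, hdet, hww, hXj, hXl'⟩ := hpair hno
      obtain ⟨N', h1, h2, h3⟩ := (pk i).mix P hP (ext n b) hbW (ext_ne hb0) (hbv i hi) hall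
        (Fin.castAdd k j) (Fin.castAdd k l) (by
          intro h
          apply hjl
          have := congrArg Fin.val h
          simp at this
          exact Fin.ext this) (ext_left b j) (ext_left b l) w w' a' b' c' d hdet hww
        (by rw [hXl]; exact hXj) (by rw [hXl]; exact hXl') ρ o ho0 hprim (hprodU b)
      refine ⟨j, l, hjl, N', h1, ?_, ?_⟩
      · have := hGi i
        calc N' ≤ GG := h2.trans this
          _ ≤ GG + GG * GG := Nat.le_add_right _ _
          _ ≤ _ := Nat.le_add_right _ _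
      · show PsiE ιZ (mP N') (mD N') (X j) (X l) = 0
        rw [hXj, hXl']
        exact h3
    · right
      have hbad : ∀ i ∈ S, ∃ j, (pk i).bad P j := by
        intro i hi
        by_contra hcon
        push Not at hcon
        refine hex ⟨fun j hj => (hconst i j hj).elim fun j' hj' => hcon _ hj', i, hi, hcon⟩
      obtain ⟨i, hi, i', hi', hii'⟩ := Finset.one_lt_card.1 (show 1 < S.card by omega)
      obtain ⟨o', s, h1, h2, -, h3⟩ := (pk i).mulb P hP (ext n b) hbW (hbv i hi) (hbad i hi)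
        (ext_supp fun l _ => hS i hi l) ρ o ho0 hprim (hprodU b)
      obtain ⟨o'', s', h1', h2', -, h3'⟩ := (pk i').mulb P hP (ext n b) hbW (hbv i' hi')
        (hbad i' hi') (ext_supp fun l _ => hS i' hi' l) ρ o ho0 hprim (hprodU b)
      have h4 := order_two (hp i) (hp i') (fun h => hii' (hpi h)) h3 h3' h1' (h2.trans (hGi i))
        (h2'.trans (hGi i'))
      refine ⟨b, hbS S, hb0, o, ho0, ?_, hprim.pow_eq_one⟩
      calc o ≤ GG * GG := h4
        _ ≤ GG + GG * GG := Nat.le_add_left _ _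
        _ ≤ _ := Nat.le_add_right _ _

end

end Pool.Agent.Y226.ZE
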