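import Pool.Agent.Y226.ZE.Mix2
import Pool.Agent.Y226.ZM.Fin

/-!
# The theorem in elementary terms
-/

set_option autoImplicit false
set_option linter.unusedSectionVars false

open UpperHalfPlane H294ZP Polynomial

namespace Pool.Agent.Y226.ZE

open Pool.Agent.Y226 Pool.Agent.Y226.ZG Pool.Agent.Y226.ZM Pool.Agent.Y237.SA

/-- the final form -/
theorem main_surf {n k K : ℕ} (i₀ : Fin n)
    (I : Ideal (MvPolynomial (Fin (n + 1 + k)) (algebraicClosure ℚ ℂ)))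
    (hI : I.IsPrime)
    (hconst : ∀ (i : Fin (n + 1 + k)) (c : algebraicClosure ℚ ℂ),
      MvPolynomial.X i - MvPolynomial.C c ∉ I)
    (hgen : ∀ i j : Fin (n + 1 + k), i ≠ j → ∃ (a b : ℕ) (g : ℕ → ℕ → algebraicClosure ℚ ℂ),
      g 0 0 ≠ 0 ∧ g a 0 ≠ 0 ∧ g 0 b ≠ 0 ∧ g a b ≠ 0 ∧
      ∑ u ∈ Finset.range (a + 1), ∑ v ∈ Finset.range (b + 1),
        MvPolynomial.C (g u v) * MvPolynomial.X i ^ u * MvPolynomial.X j ^ v ∈ I) (W : ℕ)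
    (Γ : Finset ℂ) (hΓ : ∀ γ ∈ Γ, IsAlgebraic ℚ γ) (hK1 : 1 ≤ K) (hK3 : k = 0 ∨ 3 ≤ K)
    (hK : k * (k - 1) ≤ K) :
    ∃ D : ℕ, ∀ (lam mu : Fin n → ℚ) (lamU muU : ℚ) (nu : Fin k → ℚ),
      (∀ l, nu l ≠ 0) → (∃ (p e f wU : Fin K → ℕ) (w : Fin K → Fin n → ℕ) (c : Fin K → Fin k → ℤ),
        Function.Injective p ∧ Indep c ∧
        ∀ i, (p i).Prime ∧ D < p i ∧ 0 < e i ∧ 0 < f i ∧
        (∀ j, 0 < w i j ∧ w i j ≤ W ∧ padicValRat (p i) (lam j) = -((w i j : ℤ) * e i) ∧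
          padicValRat (p i) (lam j) < padicValRat (p i) (mu j)) ∧
        (3 ≤ wU i * e i ∧ wU i ≤ W ∧ padicValRat (p i) lamU = -((wU i : ℤ) * e i) ∧
          padicValRat (p i) lamU < padicValRat (p i) muU) ∧
        ∀ l, |c i l| ≤ W ∧ padicValRat (p i) (nu l) = (f i : ℤ) * c i l) →
      {x : Fin (n + 1 + k) → ℂ | (∃ y ∈ VC I, x = Th (Fin.snoc lam lamU) (Fin.snoc mu muU) nu y) ∧
        (∀ l, x (Fin.natAdd (n + 1) l) ≠ 0) ∧ x (mo k i₀) ≠ 0 ∧ x (mo k i₀) ≠ 1728 ∧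
        ∃ (r t : ℕ) (Z : SV (Γ : Set ℂ) n r) (M : Submodule ℤ (Fin k → ℤ)) (η : Fin k → ℂ),
          (∀ l, ∃ o : ℕ, 0 < o ∧ η l ^ o = 1) ∧ t ≤ 1 ∧ r + 2 ≤ n + t + Module.finrank ℤ M ∧
          (fun j => x (mo k j)) ∈ Z.locus ∧
          (t = 1 → Z.cls i₀ ≠ none ∧ TorsX (x (mo k i₀)) (x (eU n k))) ∧
          ∀ a ∈ M, ∏ l, x (Fin.natAdd (n + 1) l) ^ a l = ∏ l, η l ^ a l}.Finite := by
  classical
  have hgen' : ∀ i j, i ≠ j → ∃ (a b : ℕ) (g : QA[X][X]), Cor4 a b g ∧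
      E2 MvPolynomial.C (MvPolynomial.X i) (MvPolynomial.X j) g ∈ I := fun i j hij => by
    obtain ⟨a, b, g, h1, h2, h3, h4, h5⟩ := hgen i j hij
    exact ⟨a, b, mkG a b g, mkG_cor h1 h2 h3 h4, by rw [E2_mkG]; exact h5⟩
  have hD : ∀ c : Fin K → Fin k → ℤ, ∃ D : ℕ, Indep c → _ := fun c => by
    by_cases hc : Indep c
    · obtain ⟨D, hD⟩ := main_mixE i₀ I hI hconst hgen' W Γ hΓ hK1 hK3 hK c hc
      exact ⟨D, fun _ => hD⟩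
    · exact ⟨0, fun h => absurd h hc⟩
  choose D hD using hD
  refine ⟨∑ c ∈ (finite_exp K k W).toFinset, D c, ?_⟩
  rintro lam mu lamU muU nu hnu ⟨p, e, f, wU, w, c, hpi, hc, hall⟩
  have hcm : c ∈ (finite_exp K k W).toFinset := by
    rw [Set.Finite.mem_toFinset]
    exact fun i l => ((hall i).2.2.2.2.2.2 l).1
  have hle : D c ≤ ∑ c ∈ (finite_exp K k W).toFinset, D c :=
    Finset.single_le_sum (f := D) (fun _ _ => Nat.zero_le _) hcm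
  refine (hD c hc lam mu lamU muU nu hnu ⟨p, e, f, wU, w, hpi, fun i => ?_⟩).1
  obtain ⟨h1, h2, h3, h4, h5, h6, h7⟩ := hall i
  exact ⟨h1, lt_of_le_of_lt hle h2, h3, h4, h5, h6, fun l => (h7 l).2⟩

end Pool.Agent.Y226.ZE
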