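import Pool.Agent.Y226.ZE.Tors
import Pool.Agent.Y226.ZM.Fin

/-!
# Curves in products of elliptic curves
-/

set_option autoImplicit false
set_option linter.unusedSectionVars false

open UpperHalfPlane H294ZP Polynomial

namespace Pool.Agent.Y226.ZE

open Pool.Agent.Y226 Pool.Agent.Y226.ZG Pool.Agent.Y226.ZM Pool.Agent.H901R3.MS Pool.Agent.Y237.SA
open WeierstrassCurve

/-- torsion points on curves with large `j`-invariant -/
theorem tors_small {C : Type} [NormedField C] [IsUltrametricDist C] [CharZero C] {p : ℕ}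
    [hpf : Fact p.Prime] (hp0 : 0 < ‖(p : C)‖) (hp1 : ‖(p : C)‖ < 1) (h3 : 3 < p)
    (φ : QA →+* C) [DecidableEq QA] {X U : QA} (hX : 1 < ‖φ X‖) (h : U ∈ TX (co X) (co X)) :
    ‖φ U‖ ≤ (‖(p : C)‖⁻¹) ^ 2 := by
  classical
  have hint : ∀ z : ℤ, ‖(z : C)‖ ≤ 1 := fun z => IsUltrametricDist.norm_intCast_le_one C z
  have hq1 : ∀ q : ℕ, q.Coprime p → ‖(q : C)‖ = 1 := by
    intro q hq
    have hq0 : q ≠ 0 := by
      rintro rfl
      rw [Nat.coprime_zero_left] at hq
      have := hpf.out.one_lt
      omega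
    have h1 := rat_norm (C := C) hp0 hp1 (q := (q : ℚ)) (by exact_mod_cast hq0)
    rw [padicValRat.of_nat, padicValNat.eq_zero_of_not_dvd (by
      intro hd
      have h4 := Nat.Coprime.eq_one_of_dvd hq.symm hd
      have := hpf.out.one_lt
      omega)] at h1
    simpa using h1
  have h4 : ‖(4 : C)‖ = 1 := by
    have := hq1 4 (by
      have h5 : Nat.Coprime 2 p := (Nat.coprime_primes Nat.prime_two hpf.out).2 (by omega)
      have := Nat.Coprime.pow_left 2 h5
      norm_num at this
      exact this)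
    exact_mod_cast this
  have h1728 : ‖(1728 : C)‖ ≤ 1 := by simpa using hint 1728
  have h27 : ‖(27 : C)‖ ≤ 1 := by simpa using hint 27
  have hsub : ‖φ X - 1728‖ = ‖φ X‖ := by
    rw [sub_eq_add_neg, neq_of_add_lt]
    rw [norm_neg]
    exact h1728.trans_lt hX
  have hX0 : φ X ≠ 0 := by
    intro h0
    rw [h0, norm_zero] at hX
    linarith
  have hX1 : φ X ≠ 1728 := by
    intro h0
    rw [h0] at hX
    linarith
  have hco : ‖co (φ X)‖ ≤ 1 := by
    unfold co
    rw [norm_div, norm_neg, norm_mul, norm_mul, h4, hsub, one_mul, mul_div_assoc,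
      div_self (by linarith), mul_one]
    exact h27
  have hD : Disc (co (φ X)) (co (φ X)) := disc_co hX0 hX1
  have hm := map_TX φ (c := (1 : C)) one_ne_zero (A := co X) (B := co X) (A' := co (φ X))
    (B' := co (φ X)) (by rw [one_pow, one_mul, co_map]) (by rw [one_pow, one_mul, co_map]) hD h
  rw [one_pow, mul_one] at hm
  obtain ⟨y, hns, n, hn, hn0⟩ := hm
  have hpi : 1 ≤ ‖(p : C)‖⁻¹ := (one_le_inv₀ hp0).2 hp1.le
  refine torsion_le (si_CV hco hco) two_ne_zero (one_le_pow₀ hpi) ?_ hns hn hn0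
  intro q hq
  by_cases hqp : q = p
  · subst hqp
    rw [← mul_pow, inv_mul_cancel₀ hp0.ne', one_pow]
  · rw [hq1 q ((Nat.coprime_primes hq hpf.out).2 hqp), one_pow, mul_one]
    exact one_le_pow₀ hpi

/-- isogenous elliptic curves -/
def Isog (X Y : ℂ) : Prop := ∃ (w w' : ℍ) (a b c d : ℤ), 0 < a * d - b * c ∧
  (w' : ℂ) * (c * w + d) = a * w + b ∧ X = jj w ∧ Y = jj w'

/-- the image of a point, over the algebraic numbers -/
noncomputable def ThQ {g : ℕ} (lam mu lam' mu' : Fin g → ℚ) (s : Fin (g + g) → QA) :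
    Fin g → QA × QA :=
  fun j => ((lam j : QA) * s (Fin.castAdd g j) + mu j, (lam' j : QA) * s (Fin.natAdd g j) + mu' j)

/-- the main theorem -/
theorem main_fib [DecidableEq QA] {g : ℕ} (I : Ideal (MvPolynomial (Fin (g + g)) QA))
    (hIp : I.IsPrime)
    (hconst : ∀ (i : Fin (g + g)) (c : QA), MvPolynomial.X i - MvPolynomial.C c ∉ I)
    (hgen : ∀ i j, i ≠ j → ∃ (a b : ℕ) (g : QA[X][X]), Cor4 a b g ∧
      E2 MvPolynomial.C (MvPolynomial.X i) (MvPolynomial.X j) g ∈ I) (W : ℕ) :
    ∃ D : ℕ, ∀ lam mu lam' mu' : Fin g → ℚ, (∃ (p e : ℕ) (w : Fin g → ℕ), p.Prime ∧ D < p ∧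
      0 < e ∧ ∀ j, 0 < w j ∧ w j ≤ W ∧ padicValRat p (lam j) = -((w j : ℤ) * e) ∧
        padicValRat p (lam j) < padicValRat p (mu j) ∧
        padicValRat p (lam' j) ≤ -((e : ℤ) + 2) ∧
        padicValRat p (lam' j) < padicValRat p (mu' j)) →
      {x : Fin g → QA × QA | (∃ s, OnV I s ∧ x = ThQ lam mu lam' mu' s) ∧
        ∃ (r : ℕ) (cls : Fin g → Fin r) (T : Finset (Fin g)), r + 2 ≤ g + T.card ∧
          (∀ j l, cls j = cls l → Isog (rA (x j).1) (rA (x l).1)) ∧
          ∀ i ∈ T, (x i).2 ∈ TX (co (x i).1) (co (x i).1)}.Finite := by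
  classical
  haveI := hIp
  obtain ⟨𝔽, _, _, x₀, hx1, hx2⟩ := ff_of_prime I
  obtain ⟨𝒞, h𝒞⟩ := exists_GP x₀ hx1 (fun i => by
      intro halg
      obtain ⟨r, hr, hr0⟩ := halg
      obtain ⟨c, hc⟩ := root_const (algebraMap QA 𝔽) hr hr0
      apply hconst i c
      rw [← hx2, map_sub, MvPolynomial.aeval_X, MvPolynomial.aeval_C, hc, sub_self])
    (fun i j hij => by
      obtain ⟨a, b, g, hg, hgI⟩ := hgen i j hij
      refine ⟨a, b, g, hg, ?_⟩
      rw [← hx2, aeval_E2, MvPolynomial.aeval_X, MvPolynomial.aeval_X] at hgI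
      exact hgI)
  subst h𝒞
  obtain ⟨D₀, hD₀⟩ := exists_loc 𝒞 hx2 (W + 1)
  -- zeros of functions
  have hzfin : ∀ f, f ∉ I → {s : Fin (g + g) → QA | OnV I s ∧ MvPolynomial.eval s f = 0}.Finite := by
    intro f hf
    have h1 : ∀ i, ∃ q : QA[X], q ≠ 0 ∧ ∀ s : Fin (g + g) → QA, OnV I s →
        MvPolynomial.eval s f = 0 → q.eval (s i) = 0 := by
      intro i
      obtain ⟨q, hq, hq'⟩ := coord_poly 𝒞 (fun h => hf ((hx2 f).1 h)) i
      refine ⟨q, hq, fun s hs hfs => ?_⟩
      have := hq' QA (RingHom.id QA) s (fun g hg => by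
        exact hs g ((hx2 g).1 hg)) (by exact hfs)
      simpa using this
    choose q hq hq' using h1
    refine Set.Finite.subset (Set.Finite.pi' fun i => (q i).rootSet_finite QA) ?_
    rintro s ⟨hs, hfs⟩ i
    rw [mem_rootSet]
    refine ⟨hq i, ?_⟩
    rw [coe_aeval_eq_eval]
    exact hq' i s hs hfs
  refine ⟨D₀ + 3, ?_⟩
  rintro lam mu lam' mu' ⟨p, e, w, hp, hDp, he, hw⟩
  haveI hpf : Fact p.Prime := ⟨hp⟩
  obtain ⟨C, _, _, _, _, _, φ, hpn⟩ := exists_padic p
  have hpR : (1 : ℝ) < p := by exact_mod_cast hp.one_lt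
  have hp0 : 0 < ‖(p : C)‖ := by rw [hpn]; exact inv_pos.2 (by linarith)
  have hp1 : ‖(p : C)‖ < 1 := by rw [hpn]; exact inv_lt_one_of_one_lt₀ hpR
  obtain ⟨k, _, _, _, red, hker⟩ := exists_residue2 (C := C) (p := p) hp1
  have hpQ : (p : ℚ) ≠ 0 := by exact_mod_cast hp.ne_zero
  -- the exponents
  have hlam'0 : ∀ j, lam' j ≠ 0 := by
    intro j h0
    have := (hw j).2.2.2.2.1
    rw [h0, padicValRat.zero] at this
    omega
  have ht : ∀ j, ∃ t : ℕ, padicValRat p (lam' j) + (t + 2 : ℤ) = -(e : ℤ) := by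
    intro j
    have := (hw j).2.2.2.2.1
    exact ⟨(-(e : ℤ) - padicValRat p (lam' j) - 2).toNat, by omega⟩
  choose t ht using ht
  set la : Fin (g + g) → ℚ := Fin.append lam (fun j => lam' j * (p : ℚ) ^ (t j + 2)) with hla
  set mm : Fin (g + g) → ℚ := Fin.append mu (fun j => mu' j * (p : ℚ) ^ (t j + 2)) with hmm
  set ww : Fin (g + g) → ℕ := Fin.append w (fun _ => 1) with hww
  have hvp : ∀ q : ℚ, q ≠ 0 → ∀ m : ℕ, padicValRat p (q * (p : ℚ) ^ m) = padicValRat p q + m := by
    intro q hq m
    rw [padicValRat.mul hq (pow_ne_zero _ hpQ), padicValRat.pow, padicValRat.self hp.one_lt,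
      mul_one]
  obtain ⟨M, d, D, 𝓛, hφ, hΛ, htm, hPt, hunit⟩ := hD₀ p (by omega) C φ hp0 hp1 k red hker la mm ww e
    he (fun i => by
      refine Fin.addCases (motive := fun i => 0 < ww i ∧ ww i ≤ W + 1) ?_ ?_ i
      · intro j
        rw [hww, Fin.append_left]
        exact ⟨(hw j).1, (hw j).2.1.trans (Nat.le_succ _)⟩
      · intro j
        rw [hww, Fin.append_right]
        exact ⟨one_pos, by omega⟩)
    (fun i => by
      refine Fin.addCases (motive := fun i => padicValRat p (la i) = -((ww i : ℤ) * e)) ?_ ?_ i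
      · intro j
        rw [hww, hla, Fin.append_left, Fin.append_left]
        exact (hw j).2.2.1
      · intro j
        rw [hww, hla, Fin.append_right, Fin.append_right, hvp _ (hlam'0 j)]
        have := ht j
        push_cast
        linarith)
    (fun i => by
      refine Fin.addCases (motive := fun i => padicValRat p (la i) < padicValRat p (mm i)) ?_ ?_ i
      · intro j
        rw [hmm, hla, Fin.append_left, Fin.append_left]
        exact (hw j).2.2.2.1
      · intro j
        rw [hmm, hla, Fin.append_right, Fin.append_right, hvp _ (hlam'0 j)]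
        have h1 := ht j
        by_cases h0 : mu' j = 0
        · rw [h0, zero_mul, padicValRat.zero]
          push_cast
          omega
        · rw [hvp _ h0]
          have := (hw j).2.2.2.2.2
          linarith)
  have hlal : ∀ j, la (Fin.castAdd g j) = lam j := fun j => Fin.append_left _ _ _
  have hlar : ∀ j, la (Fin.natAdd g j) = lam' j * (p : ℚ) ^ (t j + 2) :=
    fun j => Fin.append_right _ _ _
  have hmml : ∀ j, mm (Fin.castAdd g j) = mu j := fun j => Fin.append_left _ _ _
  have hmmr : ∀ j, mm (Fin.natAdd g j) = mu' j * (p : ℚ) ^ (t j + 2) :=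
    fun j => Fin.append_right _ _ _
  have hla0 : ∀ i, la i ≠ 0 := by
    intro i h0
    have h1 : (𝓛.Λ i : C) = 0 := by
      rw [hΛ, h0, Rat.cast_zero]
    exact (𝓛.Λ i).ne_zero h1
  -- the modular polynomials
  have hΨI : ∀ j k, j ≠ k → ∀ N, 0 < N → PsiM la mm j k N ∉ I := by
    intro j k hjk N hN hmem
    rw [← hx2] at hmem
    refine psi_pole 𝒞 iA hjk hN (a := (la j : QA)) (b := (mm j : QA)) (b' := (mm k : QA))
      (show (la k : QA) ≠ 0 by exact_mod_cast hla0 k) ?_
    rw [← hmem]
    show _ = ((MvPolynomial.aeval 𝒞.x : MvPolynomial (Fin (g + g)) QA →ₐ[QA] 𝔽).toRingHom)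
      (PsiM la mm j k N)
    unfold PsiM
    rw [map_PsiE]
    have e1 : (((MvPolynomial.aeval 𝒞.x : MvPolynomial (Fin (g + g)) QA →ₐ[QA] 𝔽).toRingHom).comp
        ((MvPolynomial.C : QA →+* MvPolynomial (Fin (g + g)) QA).comp iA)) =
        (algebraMap QA 𝔽).comp iA := by
      refine RingHom.ext fun z => ?_
      show MvPolynomial.aeval 𝒞.x (MvPolynomial.C (iA z)) = _
      rw [MvPolynomial.aeval_C]
      rfl
    have e2 : ∀ c d : QA, ∀ i, ((MvPolynomial.aeval 𝒞.x :
        MvPolynomial (Fin (g + g)) QA →ₐ[QA] 𝔽).toRingHom)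
        (MvPolynomial.C c * MvPolynomial.X i + MvPolynomial.C d) =
        algebraMap QA 𝔽 c * 𝒞.x i + algebraMap QA 𝔽 d := by
      intro c d i
      show MvPolynomial.aeval 𝒞.x (MvPolynomial.C c * MvPolynomial.X i + MvPolynomial.C d) = _
      rw [map_add, map_mul, MvPolynomial.aeval_C, MvPolynomial.aeval_C, MvPolynomial.aeval_X]
    rw [e1, e2, e2]
  obtain ⟨G₁, hG₁⟩ := 𝓛.local_core'
  obtain ⟨G₂, hG₂⟩ := 𝓛.level_small
  set G := G₁ + G₂ with hG
  have hf : ∀ q : Fin (g + g) × Fin (g + g) × ℕ, ∃ f, f ∉ I ∧ (q.1 ≠ q.2.1 → 0 < q.2.2 →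
      f = PsiM la mm q.1 q.2.1 q.2.2) := by
    rintro ⟨j, k, N⟩
    by_cases h : j ≠ k ∧ 0 < N
    · exact ⟨_, hΨI j k h.1 N h.2, fun _ _ => rfl⟩
    · exact ⟨1, fun h1 => hIp.ne_top ((Ideal.eq_top_iff_one I).2 h1),
        fun h1 h2 => absurd ⟨h1, h2⟩ h⟩
  choose f hf0 hf1 using hf
  have hfin : (⋃ q ∈ (Finset.univ ×ˢ Finset.univ ×ˢ Finset.range (G + 1) :
      Finset (Fin (g + g) × Fin (g + g) × ℕ)), (ThQ lam mu lam' mu') ''
        {s | OnV I s ∧ MvPolynomial.eval s (f q) = 0}).Finite :=
    Set.Finite.biUnion (Finset.finite_toSet _) fun q _ => (hzfin _ (hf0 q)).image _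
  refine hfin.subset ?_
  rintro x ⟨⟨s, hs, rfl⟩, r, cls, T, hr, hcls, hT⟩
  have hPts := hPt s hs
  have hXX : ∀ i, 𝓛.φ ((la i : QA) * s i + mm i) = 𝓛.Λ i * φ (s i) + 𝓛.tm i := fun i => by
    rw [hφ, map_add, map_mul, map_ratCast, map_ratCast, hΛ, htm]
  -- it suffices to find a relation of bounded level
  suffices hkey : ∃ j l : Fin (g + g), j ≠ l ∧ ∃ N, 0 < N ∧ N ≤ G ∧ PsiE ιZ (mP N) (mD N)
      (rA ((la j : QA) * s j + mm j)) (rA ((la l : QA) * s l + mm l)) = 0 by
    obtain ⟨j, l, hjl, N, hN0, hN, hΨ⟩ := hkey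
    rw [Set.mem_iUnion₂]
    refine ⟨(j, l, N), ?_, s, ⟨hs, ?_⟩, rfl⟩
    · simp only [Finset.mem_product, Finset.mem_univ, Finset.mem_range, true_and]
      omega
    · rw [hf1 (j, l, N) hjl hN0]
      apply (map_eq_zero rA).1
      rw [← eval₂_rA]
      show MvPolynomial.eval₂ rA (fun i => rA (s i)) (PsiM la mm j l N) = 0
      rw [PsiM_eval₂]
      rw [map_add, map_add, map_mul, map_mul, map_ratCast, map_ratCast, map_ratCast,
        map_ratCast] at hΨ
      exact hΨ
  -- small coordinates
  have hsm : ∀ i ∈ T, ∃ a : Fin (g + g), (a = Fin.castAdd g i ∨ a = Fin.natAdd g i) ∧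
      ‖𝓛.φ ((la a : QA) * s a + mm a)‖ ≤ 1 := by
    intro i hi
    by_cases hX : ‖φ ((lam i : QA) * s (Fin.castAdd g i) + mu i)‖ ≤ 1
    · refine ⟨Fin.castAdd g i, Or.inl rfl, ?_⟩
      rw [hφ, hlal, hmml]
      exact hX
    · push Not at hX
      refine ⟨Fin.natAdd g i, Or.inr rfl, ?_⟩
      have h1 := tors_small hp0 hp1 (by omega) φ hX (hT i hi)
      have h2 : φ ((la (Fin.natAdd g i) : QA) * s (Fin.natAdd g i) + mm (Fin.natAdd g i)) =
          φ ((lam' i : QA) * s (Fin.natAdd g i) + mu' i) * (p : C) ^ (t i + 2) := by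
        rw [hlar, hmmr]
        simp only [map_add, map_mul, map_ratCast, Rat.cast_mul, Rat.cast_pow, Rat.cast_natCast,
          map_pow, map_natCast]
        ring
      rw [hφ, h2, norm_mul, norm_pow]
      calc ‖φ ((lam' i : QA) * s (Fin.natAdd g i) + mu' i)‖ * ‖(p : C)‖ ^ (t i + 2)
          ≤ (‖(p : C)‖⁻¹) ^ 2 * ‖(p : C)‖ ^ (t i + 2) :=
            mul_le_mul_of_nonneg_right h1 (by positivity)
        _ = ‖(p : C)‖ ^ t i * (‖(p : C)‖⁻¹ * ‖(p : C)‖) ^ 2 := by ring
        _ = ‖(p : C)‖ ^ t i := by rw [inv_mul_cancel₀ hp0.ne', one_pow, mul_one]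
        _ ≤ 1 := pow_le_one₀ hp0.le hp1.le
  by_cases hT0 : T.card = 0
  · -- the pure case
    rw [hT0, add_zero] at hr
    obtain ⟨j, l, hjl, N, h1, h2, h3⟩ := hG₁ (fun i => (la i : QA) * s i + mm i)
      (fun i => φ (s i)) hPts hXX (r + g)
      (Fin.append (fun j => some (Fin.castAdd g (cls j))) (fun j => some (Fin.natAdd r j)))
      (by omega) (by
        intro i
        refine Fin.addCases (motive := fun i => (Fin.append (fun j => some (Fin.castAdd g (cls j)))
          (fun j => some (Fin.natAdd r j)) : Fin (g + g) → Option (Fin (r + g))) i = none →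
          ‖𝓛.φ ((la i : QA) * s i + mm i)‖ ≤ 1) ?_ ?_ i
        · intro j h
          rw [Fin.append_left] at h
          exact absurd h (by simp)
        · intro j h
          rw [Fin.append_right] at h
          exact absurd h (by simp)) (by
        intro j l c
        refine Fin.addCases (motive := fun j => j ≠ l → (Fin.append (fun j => some (Fin.castAdd g (cls j)))
          (fun j => some (Fin.natAdd r j)) : Fin (g + g) → Option (Fin (r + g))) j = some c →
          (Fin.append (fun j => some (Fin.castAdd g (cls j)))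
          (fun j => some (Fin.natAdd r j)) : Fin (g + g) → Option (Fin (r + g))) l = some c →
          Isog (rA ((la j : QA) * s j + mm j)) (rA ((la l : QA) * s l + mm l))) ?_ ?_ j
        · intro j
          refine Fin.addCases (motive := fun l => Fin.castAdd g j ≠ l →
            (Fin.append (fun j => some (Fin.castAdd g (cls j)))
            (fun j => some (Fin.natAdd r j)) : Fin (g + g) → Option (Fin (r + g))) (Fin.castAdd g j) = some c →
            (Fin.append (fun j => some (Fin.castAdd g (cls j)))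
            (fun j => some (Fin.natAdd r j)) : Fin (g + g) → Option (Fin (r + g))) l = some c →
            Isog (rA ((la (Fin.castAdd g j) : QA) * s (Fin.castAdd g j) + mm (Fin.castAdd g j)))
              (rA ((la l : QA) * s l + mm l))) ?_ ?_ l
          · intro l _ h1 h2
            rw [Fin.append_left] at h1 h2
            have h3 := Option.some.inj (h1.trans h2.symm)
            have h4 : cls j = cls l := by
              have := congrArg Fin.val h3
              simp at this
              exact Fin.ext this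
            have h5 := hcls j l h4
            rw [hlal, hmml, hlal, hmml]
            exact h5
          · intro l _ h1 h2
            rw [Fin.append_left] at h1
            rw [Fin.append_right] at h2
            have h3 := congrArg Fin.val (Option.some.inj (h1.trans h2.symm))
            have h4 := (cls j).2
            simp at h3
            omega
        · intro j
          refine Fin.addCases (motive := fun l => Fin.natAdd g j ≠ l →
            (Fin.append (fun j => some (Fin.castAdd g (cls j)))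
            (fun j => some (Fin.natAdd r j)) : Fin (g + g) → Option (Fin (r + g))) (Fin.natAdd g j) = some c →
            (Fin.append (fun j => some (Fin.castAdd g (cls j)))
            (fun j => some (Fin.natAdd r j)) : Fin (g + g) → Option (Fin (r + g))) l = some c →
            Isog (rA ((la (Fin.natAdd g j) : QA) * s (Fin.natAdd g j) + mm (Fin.natAdd g j)))
              (rA ((la l : QA) * s l + mm l))) ?_ ?_ l
          · intro l _ h1 h2
            rw [Fin.append_right] at h1
            rw [Fin.append_left] at h2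
            have h3 := congrArg Fin.val (Option.some.inj (h1.trans h2.symm))
            have h4 := (cls l).2
            simp at h3
            omega
          · intro l hne h1 h2
            rw [Fin.append_right] at h1 h2
            have h3 := congrArg Fin.val (Option.some.inj (h1.trans h2.symm))
            simp at h3
            exact absurd (by rw [Fin.ext h3]) hne)
    exact ⟨j, l, hjl, N, h1, by omega, h3⟩
  · by_cases hT1 : T.card = 1
    · obtain ⟨i, hi⟩ := Finset.card_eq_one.1 hT1
      have hrg : r < g := by omega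
      obtain ⟨j, l, hjl, hc⟩ := Fintype.exists_ne_map_eq_of_card_lt cls (by simpa using hrg)
      obtain ⟨a, -, ha⟩ := hsm i (by rw [hi]; exact Finset.mem_singleton_self i)
      obtain ⟨w1, w2, a', b', c', d', hdet, hrel, hj, hl⟩ := hcls j l hc
      obtain ⟨N, h1, h2, h3⟩ := hG₂ (fun i => (la i : QA) * s i + mm i)
        (fun i => φ (s i)) hPts hXX a ha (Fin.castAdd g j) (Fin.castAdd g l) (by
          intro h
          apply hjl
          have := congrArg Fin.val h
          simp at this
          exact Fin.ext this) w1 w2 a' b' c' d' hdet hrel (by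
          show rA ((la (Fin.castAdd g j) : QA) * s (Fin.castAdd g j) + mm (Fin.castAdd g j)) = _
          rw [hlal, hmml]; exact hj) (by
          show rA ((la (Fin.castAdd g l) : QA) * s (Fin.castAdd g l) + mm (Fin.castAdd g l)) = _
          rw [hlal, hmml]; exact hl)
      refine ⟨Fin.castAdd g j, Fin.castAdd g l, ?_, N, h1, by omega, h3⟩
      intro h
      apply hjl
      have := congrArg Fin.val h
      simp at this
      exact Fin.ext this
    · exfalso
      have h2 : 1 < T.card := by omega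
      obtain ⟨i, hi, i', hi', hne⟩ := Finset.one_lt_card.1 h2
      obtain ⟨a, ha, ha1⟩ := hsm i hi
      obtain ⟨a', ha', ha1'⟩ := hsm i' hi'
      have hne' : a ≠ a' := by
        intro h
        apply hne
        apply Fin.ext
        have h3 := congrArg Fin.val h
        rcases ha with rfl | rfl <;> rcases ha' with rfl | rfl <;>
          simp at h3 <;> have := i.2 <;> have := i'.2 <;> omega
      have h3 := 𝓛.small_bad (hXX a) ha1
      have h4 := 𝓛.small_bad (hXX a') ha1'
      rcases 𝓛.one_bad hPts hne' with h5 | h5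
      · rw [h5] at h3; linarith
      · rw [h5] at h4; linarith

end Pool.Agent.Y226.ZE
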