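import Pool.Agent.Y226.ZE.Comb2
import Pool.Agent.Y226.ZM.Mix

/-!
# Curves in products of an elliptic modular surface, modular curves and multiplicative groups
-/

set_option autoImplicit false
set_option linter.unusedSectionVars false

open UpperHalfPlane H294ZP Polynomial

namespace Pool.Agent.Y226.ZE

open Pool.Agent.Y226 Pool.Agent.Y226.ZG Pool.Agent.Y226.ZM Pool.Agent.Y237.SA

/-- the modular coordinates -/
def mo {n : ℕ} (k : ℕ) (j : Fin n) : Fin (n + 1 + k) := Fin.castAdd k j.castSucc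

/-- the abscissa -/
def eU (n k : ℕ) : Fin (n + 1 + k) := Fin.castAdd k (Fin.last n)

theorem mo_ne {n k : ℕ} {i j : Fin n} (h : i ≠ j) : mo k i ≠ mo k j := by
  intro h1
  apply h
  have := congrArg Fin.val h1
  simp [mo] at this
  exact Fin.ext this

theorem mo_ne_eU {n k : ℕ} (i : Fin n) : mo k i ≠ eU n k := by
  intro h1
  have := congrArg Fin.val h1
  simp [mo, eU] at this
  have h2 := i.2
  omega

/-- torsion points of algebraic points -/
theorem torsQ_of {X U : QA} (h0 : X ≠ 0) (h1 : X ≠ 1728) (h : TorsX (rA X) (rA U)) : TorsQ X U := by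
  classical
  have h2 := tors_desc h0 h1 h (RingHom.id QA)
  unfold TorsQ
  simpa using h2

/-- the main theorem -/
theorem main_mixE {n k K : ℕ} (i₀ : Fin n) (I : Ideal (MvPolynomial (Fin (n + 1 + k)) QA))
    (hIp : I.IsPrime)
    (hconst : ∀ (i : Fin (n + 1 + k)) (c : QA), MvPolynomial.X i - MvPolynomial.C c ∉ I)
    (hgen : ∀ i j, i ≠ j → ∃ (a b : ℕ) (g : QA[X][X]), Cor4 a b g ∧
      E2 MvPolynomial.C (MvPolynomial.X i) (MvPolynomial.X j) g ∈ I) (W : ℕ) (Γ : Finset ℂ)
    (hΓ : ∀ γ ∈ Γ, IsAlgebraic ℚ γ) (hK1 : 1 ≤ K) (hK3 : k = 0 ∨ 3 ≤ K) (hK : k * (k - 1) ≤ K)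
    (c : Fin K → Fin k → ℤ) (hc : Indep c) : ∃ D : ℕ, ∀ (lam mu : Fin n → ℚ) (lamU muU : ℚ)
      (nu : Fin k → ℚ), (∀ l, nu l ≠ 0) →
      (∃ (p e f wU : Fin K → ℕ) (w : Fin K → Fin n → ℕ), Function.Injective p ∧
        ∀ i, (p i).Prime ∧ D < p i ∧ 0 < e i ∧ 0 < f i ∧
        (∀ j, 0 < w i j ∧ w i j ≤ W ∧ padicValRat (p i) (lam j) = -((w i j : ℤ) * e i) ∧
          padicValRat (p i) (lam j) < padicValRat (p i) (mu j)) ∧
        (3 ≤ wU i * e i ∧ wU i ≤ W ∧ padicValRat (p i) lamU = -((wU i : ℤ) * e i) ∧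
          padicValRat (p i) lamU < padicValRat (p i) muU) ∧
        ∀ l, padicValRat (p i) (nu l) = (f i : ℤ) * c i l) →
      {x : Fin (n + 1 + k) → ℂ | (∃ y ∈ VC I, x = Th (Fin.snoc lam lamU) (Fin.snoc mu muU) nu y) ∧
        (∀ l, x (Fin.natAdd (n + 1) l) ≠ 0) ∧ x (mo k i₀) ≠ 0 ∧ x (mo k i₀) ≠ 1728 ∧
        ∃ (r t : ℕ) (Z : SV (Γ : Set ℂ) n r) (M : Submodule ℤ (Fin k → ℤ)) (η : Fin k → ℂ),
          (∀ l, ∃ o : ℕ, 0 < o ∧ η l ^ o = 1) ∧ t ≤ 1 ∧ r + 2 ≤ n + t + Module.finrank ℤ M ∧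
          (fun j => x (mo k j)) ∈ Z.locus ∧
          (t = 1 → Z.cls i₀ ≠ none ∧ TorsX (x (mo k i₀)) (x (eU n k))) ∧
          ∀ a ∈ M, ∏ l, x (Fin.natAdd (n + 1) l) ^ a l = ∏ l, η l ^ a l}.Finite ∧
      ∀ (r : ℕ) (Z : SV (Γ : Set ℂ) n r) (M : Submodule ℤ (Fin k → ℤ)) (η : Fin k → ℂ),
        (∀ l, ∃ o : ℕ, 0 < o ∧ η l ^ o = 1) → r + 1 ≤ n + Module.finrank ℤ M →
        ∃ y ∈ VC I, (∀ l, Th (Fin.snoc lam lamU) (Fin.snoc mu muU) nu y (Fin.natAdd (n + 1) l) ≠ 0) ∧
          Th (Fin.snoc lam lamU) (Fin.snoc mu muU) nu y (mo k i₀) ≠ 0 ∧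
          Th (Fin.snoc lam lamU) (Fin.snoc mu muU) nu y (mo k i₀) ≠ 1728 ∧
          ¬ ((fun j => Th (Fin.snoc lam lamU) (Fin.snoc mu muU) nu y (mo k j)) ∈ Z.locus ∧
          ∀ a ∈ M, ∏ l, Th (Fin.snoc lam lamU) (Fin.snoc mu muU) nu y (Fin.natAdd (n + 1) l) ^ a l =
            ∏ l, η l ^ a l) := by
  classical
  haveI := hIp
  obtain ⟨𝔽, _, _, x₀, hx1, hx2⟩ := ff_of_prime I
  obtain ⟨𝒞, h𝒞⟩ := exists_GP x₀ hx1 (fun i => by
      intro halg
      obtain ⟨r, hr, hr0⟩ := halg
      obtain ⟨c, hc⟩ := root_const (algebraMap QA 𝔽) hr hr0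
      apply hconst i c
      rw [← hx2, map_sub, MvPolynomial.aeval_X, MvPolynomial.aeval_C, hc, sub_self])
    (fun i j hij => by
      obtain ⟨a, b, g, hg, hgI⟩ := hgen i j hij
      refine ⟨a, b, g, hg, ?_⟩
      rw [← hx2, aeval_E2, MvPolynomial.aeval_X, MvPolynomial.aeval_X] at hgI
      exact hgI)
  subst h𝒞
  -- the exponent vectors
  have hbS : ∀ S : Finset (Fin K), ∃ b : Fin k → ℤ,
      (∃ a : Fin k → ℤ, a ≠ 0 ∧ ∀ i ∈ S, ∑ l, a l * c i l = 0) →
      b ≠ 0 ∧ ∀ i ∈ S, ∑ l, b l * c i l = 0 := by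
    intro S
    by_cases h : ∃ a : Fin k → ℤ, a ≠ 0 ∧ ∀ i ∈ S, ∑ l, a l * c i l = 0
    · exact ⟨h.choose, fun _ => h.choose_spec⟩
    · exact ⟨0, fun h' => absurd h' h⟩
  choose bS hbS' using hbS
  set W' := W + 1 + ∑ S, ∑ l, (bS S l).natAbs with hW'
  have hbSW : ∀ S, Bv W' (bS S) := by
    intro S l
    have h1 : (bS S l).natAbs ≤ ∑ l, (bS S l).natAbs :=
      Finset.single_le_sum (f := fun l => (bS S l).natAbs) (fun _ _ => Nat.zero_le _)
        (Finset.mem_univ l)
    have h2 : ∑ l, (bS S l).natAbs ≤ ∑ S, ∑ l, (bS S l).natAbs :=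
      Finset.single_le_sum (f := fun S => ∑ l, (bS S l).natAbs) (fun _ _ => Nat.zero_le _)
        (Finset.mem_univ S)
    rw [Int.abs_eq_natAbs]
    have h3 : (bS S l).natAbs ≤ W' := by omega
    exact_mod_cast h3
  obtain ⟨D₁, hD₁⟩ := exists_pkgE 𝒞 hx2 W' Γ hΓ (mo k i₀) (eU n k)
  -- the projection to the modular coordinates
  let ren : MvPolynomial (Fin n) QA →+* MvPolynomial (Fin (n + 1 + k)) QA :=
    (MvPolynomial.rename (mo k) : MvPolynomial (Fin n) QA →ₐ[QA] _).toRingHom
  have hrenX : ∀ i, ren (MvPolynomial.X i) = MvPolynomial.X (mo k i) :=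
    fun i => MvPolynomial.rename_X _ _
  have hrenC : ∀ c, ren (MvPolynomial.C c) = MvPolynomial.C c := fun c => MvPolynomial.rename_C _ _
  obtain ⟨D₂, hD₂⟩ := main_QA3 (I.comap ren) (Ideal.comap_isPrime ren I) (by
      intro i c hmem
      rw [Ideal.mem_comap, map_sub, hrenX, hrenC] at hmem
      exact hconst _ c hmem) (by
      intro i j hij
      obtain ⟨a, b, g, hg, hgI⟩ := hgen _ _ (mo_ne (k := k) hij)
      refine ⟨a, b, g, hg, ?_⟩
      rw [Ideal.mem_comap, map_E2, hrenX, hrenX]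
      have e : ren.comp (MvPolynomial.C : QA →+* MvPolynomial (Fin n) QA) = MvPolynomial.C :=
        RingHom.ext hrenC
      rw [e]
      exact hgI) W Γ hΓ
  -- zeros of functions
  have hcoord : ∀ f, f ∉ I → ∀ i, ∃ q : QA[X], q ≠ 0 ∧ ∀ y ∈ VC I,
      MvPolynomial.eval₂ rA y f = 0 → ev q (y i) = 0 := by
    intro f hf i
    obtain ⟨q, hq, hq'⟩ := coord_poly 𝒞 (fun h => hf ((hx2 f).1 h)) i
    refine ⟨q, hq, fun y hy hfy => ?_⟩
    have := hq' ℂ rA y (fun g hg => hy g ((hx2 g).1 hg)) hfy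
    unfold ev
    rwa [eval_map]
  have hzfin : ∀ f, f ∉ I → {y | y ∈ VC I ∧ MvPolynomial.eval₂ rA y f = 0}.Finite := by
    intro f hf
    choose q hq hq' using hcoord f hf
    refine Set.Finite.subset (Set.Finite.pi' fun i => ((q i).map rA).rootSet_finite ℂ) ?_
    rintro y ⟨hy, hfy⟩ i
    rw [mem_rootSet]
    refine ⟨(Polynomial.map_ne_zero_iff rA.injective).2 (hq i), ?_⟩
    rw [coe_aeval_eq_eval]
    exact hq' i y hy hfy
  have hzalg : ∀ f, f ∉ I → ∀ y ∈ VC I, MvPolynomial.eval₂ rA y f = 0 →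
      ∃ s : Fin (n + 1 + k) → QA, (fun i => rA (s i)) = y ∧ OnV I s := by
    intro f hf y hy hfy
    have h1 : ∀ i, ∃ s : QA, rA s = y i := by
      intro i
      obtain ⟨q, hq, hq'⟩ := hcoord f hf i
      exact root_algebraic hq (hq' y hy hfy)
    choose s hs using h1
    have hsy : (fun i => rA (s i)) = y := funext hs
    refine ⟨s, hsy, fun g hg => ?_⟩
    have h2 := hy g hg
    rw [← hsy, eval₂_rA] at h2
    exact (map_eq_zero rA).1 h2
  refine ⟨D₁ + D₂, ?_⟩
  rintro lam mu lamU muU nu hnu ⟨p, e, f, wU, w, hpinj, hall⟩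
  have hi₀ : 0 < K := by omega
  set q₀ : Fin K := ⟨0, hi₀⟩ with hq₀'
  set la : Fin (n + 1) → ℚ := Fin.snoc lam lamU with hla
  set mm : Fin (n + 1) → ℚ := Fin.snoc mu muU with hmm
  have hlal : ∀ j : Fin n, la j.castSucc = lam j := fun j => by
    rw [hla]; exact Fin.snoc_castSucc (α := fun _ => ℚ) lamU lam j
  have hlar : la (Fin.last n) = lamU := by rw [hla]; exact Fin.snoc_last (α := fun _ => ℚ) lamU lam
  have hmml : ∀ j : Fin n, mm j.castSucc = mu j := fun j => by
    rw [hmm]; exact Fin.snoc_castSucc (α := fun _ => ℚ) muU mu j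
  have hmmr : mm (Fin.last n) = muU := by rw [hmm]; exact Fin.snoc_last (α := fun _ => ℚ) muU mu
  set ww : Fin K → Fin (n + 1) → ℕ := fun i => Fin.snoc (w i) (wU i) with hww
  have hwwl : ∀ i, ∀ j : Fin n, ww i j.castSucc = w i j := fun i j => by
    rw [hww]; exact Fin.snoc_castSucc (α := fun _ => ℕ) (wU i) (w i) j
  have hwwr : ∀ i, ww i (Fin.last n) = wU i := fun i => by
    rw [hww]; exact Fin.snoc_last (α := fun _ => ℕ) (wU i) (w i)
  have hall' : ∀ i, ∀ j : Fin (n + 1), 0 < ww i j ∧ ww i j ≤ W ∧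
      padicValRat (p i) (la j) = -((ww i j : ℤ) * e i) ∧
      padicValRat (p i) (la j) < padicValRat (p i) (mm j) := by
    intro i j
    obtain ⟨-, -, -, -, h1, ⟨h2, h3, h4, h5⟩, -⟩ := hall i
    refine Fin.lastCases (motive := fun j => 0 < ww i j ∧ ww i j ≤ W ∧
      padicValRat (p i) (la j) = -((ww i j : ℤ) * e i) ∧
      padicValRat (p i) (la j) < padicValRat (p i) (mm j)) ?_ ?_ j
    · rw [hwwr, hlar, hmmr]
      refine ⟨Nat.pos_of_ne_zero ?_, h3, h4, h5⟩
      intro h0
      rw [h0, zero_mul] at h2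
      omega
    · intro j
      rw [hwwl, hlal, hmml]
      exact h1 j
  -- basic facts
  have hla0 : ∀ i, la i ≠ 0 := by
    intro j h0
    obtain ⟨h1, -, h2, -⟩ := hall' q₀ j
    have he := (hall q₀).2.2.1
    rw [h0, padicValRat.zero] at h2
    have h3 : (0 : ℤ) < (ww q₀ j : ℤ) * e q₀ := by positivity
    omega
  have hlam0 : ∀ i, lam i ≠ 0 := fun i => by rw [← hlal]; exact hla0 _
  have hlaQ : ∀ i, (la i : QA) ≠ 0 := fun i => by exact_mod_cast hla0 i
  have hlamQ : ∀ i, (lam i : QA) ≠ 0 := fun i => by exact_mod_cast hlam0 i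
  have hlamC : ∀ i, (lam i : ℂ) ≠ 0 := fun i => by exact_mod_cast hlam0 i
  have hnuQ : ∀ l, (nu l : QA) ≠ 0 := fun l => by exact_mod_cast hnu l
  have hnuC : ∀ l, (nu l : ℂ) ≠ 0 := fun l => by exact_mod_cast hnu l
  have hThl : ∀ y (j : Fin (n + 1)), Th la mm nu y (Fin.castAdd k j) =
      la j * y (Fin.castAdd k j) + mm j := fun y j => Fin.append_left _ _ _
  have hThm : ∀ y (j : Fin n), Th la mm nu y (mo k j) = lam j * y (mo k j) + mu j := fun y j => by
    unfold mo
    rw [hThl, hlal, hmml]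
  have hThU : ∀ y, Th la mm nu y (eU n k) = lamU * y (eU n k) + muU := fun y => by
    unfold eU
    rw [hThl, hlar, hmmr]
  have hThr : ∀ y l, Th la mm nu y (Fin.natAdd (n + 1) l) = nu l * y (Fin.natAdd (n + 1) l) :=
    fun y l => Fin.append_right _ _ _
  -- the packages
  have hpkg : ∀ i, Nonempty (PkgE I (Γ : Set ℂ) W' (p i)
      (Fin.append la (fun _ : Fin k => ((p i : ℚ) ^ e i)⁻¹)) (Fin.append mm (fun _ => 0))
      (Fin.append (fun _ => 1) nu) (mo k i₀) (eU n k)) := by
    intro i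
    obtain ⟨hp, hDp, he, hf, hw, hwU, hnuv⟩ := hall i
    haveI : Fact (p i).Prime := ⟨hp⟩
    refine hD₁ (p i) (by omega) _ _ _ (Fin.append (ww i) (fun _ => 1)) (e i) he ?_ ?_ ?_ ?_ ?_
    · intro j
      refine Fin.addCases (motive := fun j => 0 < (Fin.append (ww i) (fun _ => 1) :
        Fin (n + 1 + k) → ℕ) j ∧ (Fin.append (ww i) (fun _ => 1) : Fin (n + 1 + k) → ℕ) j ≤ W') ?_ ?_ j
      · intro j
        rw [Fin.append_left]
        exact ⟨(hall' i j).1, (hall' i j).2.1.trans (by omega)⟩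
      · intro l
        rw [Fin.append_right]
        exact ⟨one_pos, by omega⟩
    · intro j
      refine Fin.addCases (motive := fun j => padicValRat (p i)
        ((Fin.append la (fun _ : Fin k => ((p i : ℚ) ^ e i)⁻¹) : Fin (n + 1 + k) → ℚ) j) =
        -(((Fin.append (ww i) (fun _ => 1) : Fin (n + 1 + k) → ℕ) j : ℤ) * e i)) ?_ ?_ j
      · intro j
        rw [Fin.append_left, Fin.append_left]
        exact (hall' i j).2.2.1
      · intro l
        rw [Fin.append_right, Fin.append_right, padicValRat.inv, padicValRat.pow,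
          padicValRat.self hp.one_lt]
        push_cast
        ring
    · intro j
      refine Fin.addCases (motive := fun j => padicValRat (p i)
        ((Fin.append la (fun _ : Fin k => ((p i : ℚ) ^ e i)⁻¹) : Fin (n + 1 + k) → ℚ) j) <
        padicValRat (p i) ((Fin.append mm (fun _ => 0) : Fin (n + 1 + k) → ℚ) j)) ?_ ?_ j
      · intro j
        rw [Fin.append_left, Fin.append_left]
        exact (hall' i j).2.2.2
      · intro l
        rw [Fin.append_right, Fin.append_right, padicValRat.inv, padicValRat.pow,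
          padicValRat.self hp.one_lt, padicValRat.zero]
        omega
    · intro j
      refine Fin.addCases (motive := fun j =>
        (Fin.append (fun _ => 1) nu : Fin (n + 1 + k) → ℚ) j ≠ 0) ?_ ?_ j
      · intro j
        rw [Fin.append_left]
        exact one_ne_zero
      · intro l
        rw [Fin.append_right]
        exact hnu l
    · unfold eU
      rw [Fin.append_left, hwwr]
      exact hwU.1
  have pk := fun i => (hpkg i).some
  have hGex : ∃ G : ℕ, ∀ P : Fin (n + 1 + k) → QA, OnV I P → ∀ (r : ℕ)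
      (cls : Fin (n + 1) → Option (Fin r))
      (M : Submodule ℤ (Fin k → ℤ)), r + 2 ≤ n + 1 + Module.finrank ℤ M → 1 ≤ Module.finrank ℤ M →
      (∀ i j, cls j = none → ∃ j' : Fin (n + 1), (pk i).bad P (Fin.castAdd k j')) →
      Atyp2 (fun j => rA ((la j : QA) * P (Fin.castAdd k j) + mm j))
        (fun l => (nu l : QA) * P (Fin.natAdd (n + 1) l)) cls M →
      (∃ j l : Fin (n + 1), j ≠ l ∧ ∃ N' : ℕ, 0 < N' ∧ N' ≤ G ∧
        PsiE ιZ (mP N') (mD N') (rA ((la j : QA) * P (Fin.castAdd k j) + mm j))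
          (rA ((la l : QA) * P (Fin.castAdd k l) + mm l)) = 0) ∨
      ∃ b : Fin k → ℤ, Bv W' b ∧ b ≠ 0 ∧ ∃ o : ℕ, 0 < o ∧ o ≤ G ∧
        (∏ l, ((nu l : QA) * P (Fin.natAdd (n + 1) l)) ^ b l) ^ o = 1 := by
    rcases hK3 with hk0 | hK3
    · refine ⟨0, fun P hP r cls M _ hM => ?_⟩
      exfalso
      have h1 : M = ⊥ := by
        rw [Submodule.eq_bot_iff]
        intro v _
        funext l
        have := l.2
        omega
      rw [h1, finrank_bot] at hM
      omega
    · exact comb2 (lamu := fun i _ => ((p i : ℚ) ^ e i)⁻¹) hK3 hK hc hbSW hbS'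
        (fun i => (hall i).1) hpinj (fun i => (hall i).2.2.2.1) (fun i l => (hall i).2.2.2.2.2.2 l)
        (fun i => (pk i).toPkg)
  obtain ⟨G, hG⟩ := hGex
  -- the coordinates
  have hXpk : ∀ i (s : Fin (n + 1 + k) → QA) (j : Fin n),
      ((((Fin.append la (fun _ : Fin k => ((p i : ℚ) ^ e i)⁻¹) : Fin (n + 1 + k) → ℚ) (mo k j) : ℚ) : QA) *
      s (mo k j) + (((Fin.append mm (fun _ => 0) : Fin (n + 1 + k) → ℚ) (mo k j) : ℚ) : QA)) =
      (lam j : QA) * s (mo k j) + mu j := by
    intro i s j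
    unfold mo
    rw [Fin.append_left, Fin.append_left, hlal, hmml]
  have hUpk : ∀ i (s : Fin (n + 1 + k) → QA),
      ((((Fin.append la (fun _ : Fin k => ((p i : ℚ) ^ e i)⁻¹) : Fin (n + 1 + k) → ℚ) (eU n k) : ℚ) : QA) *
      s (eU n k) + (((Fin.append mm (fun _ => 0) : Fin (n + 1 + k) → ℚ) (eU n k) : ℚ) : QA)) =
      (lamU : QA) * s (eU n k) + muU := by
    intro i s
    unfold eU
    rw [Fin.append_left, Fin.append_left, hlar, hmmr]
  -- the modular polynomials
  obtain ⟨lam', hlam'⟩ : ∃ v : Fin (n + 1 + k) → ℚ, v = Fin.append la (fun _ => 1) := ⟨_, rfl⟩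
  obtain ⟨mu', hmu'⟩ : ∃ v : Fin (n + 1 + k) → ℚ, v = Fin.append mm (fun _ => 0) := ⟨_, rfl⟩
  have hlam'l : ∀ j, lam' (Fin.castAdd k j) = la j := fun j => by
    rw [hlam']; exact Fin.append_left _ _ _
  have hmu'l : ∀ j, mu' (Fin.castAdd k j) = mm j := fun j => by
    rw [hmu']; exact Fin.append_left _ _ _
  have hcinj : ∀ i j : Fin (n + 1), i ≠ j → Fin.castAdd k i ≠ Fin.castAdd k j := by
    intro i j hij h
    apply hij
    have := congrArg Fin.val h
    simp at this
    exact Fin.ext this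
  have hΨI : ∀ j l : Fin (n + 1), j ≠ l → ∀ N, 0 < N →
      PsiM lam' mu' (Fin.castAdd k j) (Fin.castAdd k l) N ∉ I := by
    intro j l hjl N hN hmem
    rw [← hx2] at hmem
    refine psi_pole 𝒞 iA (hcinj j l hjl) hN (a := (lam' (Fin.castAdd k j) : QA))
      (b := (mu' (Fin.castAdd k j) : QA)) (a' := (lam' (Fin.castAdd k l) : QA))
      (b' := (mu' (Fin.castAdd k l) : QA)) (by rw [hlam'l]; exact hlaQ l) ?_
    rw [← hmem]
    show _ = ((MvPolynomial.aeval 𝒞.x : MvPolynomial (Fin (n + 1 + k)) QA →ₐ[QA] 𝔽).toRingHom)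
      (PsiM lam' mu' (Fin.castAdd k j) (Fin.castAdd k l) N)
    unfold PsiM
    rw [map_PsiE]
    have e1 : (((MvPolynomial.aeval 𝒞.x : MvPolynomial (Fin (n + 1 + k)) QA →ₐ[QA] 𝔽).toRingHom).comp
        ((MvPolynomial.C : QA →+* MvPolynomial (Fin (n + 1 + k)) QA).comp iA)) =
        (algebraMap QA 𝔽).comp iA := by
      refine RingHom.ext fun z => ?_
      show MvPolynomial.aeval 𝒞.x (MvPolynomial.C (iA z)) = _
      rw [MvPolynomial.aeval_C]
      rfl
    have e2 : ∀ c d : QA, ∀ i, ((MvPolynomial.aeval 𝒞.x :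
        MvPolynomial (Fin (n + 1 + k)) QA →ₐ[QA] 𝔽).toRingHom)
        (MvPolynomial.C c * MvPolynomial.X i + MvPolynomial.C d) =
        algebraMap QA 𝔽 c * 𝒞.x i + algebraMap QA 𝔽 d := by
      intro c d i
      show MvPolynomial.aeval 𝒞.x (MvPolynomial.C c * MvPolynomial.X i + MvPolynomial.C d) = _
      rw [map_add, map_mul, MvPolynomial.aeval_C, MvPolynomial.aeval_C, MvPolynomial.aeval_X]
    rw [e1, e2, e2]
  have hΨev : ∀ (j l : Fin (n + 1)) (N : ℕ) (y : Fin (n + 1 + k) → ℂ),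
      MvPolynomial.eval₂ rA y (PsiM lam' mu' (Fin.castAdd k j) (Fin.castAdd k l) N) =
      PsiE ιZ (mP N) (mD N) (la j * y (Fin.castAdd k j) + mm j)
        (la l * y (Fin.castAdd k l) + mm l) := by
    intro j l N y
    rw [PsiM_eval₂, hlam'l, hmu'l, hlam'l, hmu'l]
  -- relations from special subvarieties
  have hcmI : ∀ (i : Fin n) (c₀ : ℂ), IsIntegral (Algebra.adjoin ℤ (Γ : Set ℂ)) c₀ →
      ∃ f, f ∉ I ∧ ∀ y : Fin (n + 1 + k) → ℂ,
      (lam i : ℂ) * y (mo k i) + mu i = c₀ → MvPolynomial.eval₂ rA y f = 0 := by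
    intro i c₀ hint
    obtain ⟨c, hcx⟩ := int_alg hΓ c₀ hint
    refine ⟨_, hconst (mo k i) ((c - mu i) / lam i), fun y hy => ?_⟩
    rw [MvPolynomial.eval₂_sub, MvPolynomial.eval₂_X, MvPolynomial.eval₂_C, map_div₀, map_sub, hcx,
      map_ratCast, map_ratCast, ← hy]
    have := hlamC i
    field_simp
    ring
  have hcs : ∀ {j l : Fin n}, j ≠ l → j.castSucc ≠ l.castSucc := fun h h' =>
    h (Fin.castSucc_injective n h')
  have hcollI : ∀ {r : ℕ} (Z : SV (Γ : Set ℂ) n r) {j l : Fin n}, j ≠ l →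
      (∃ c, Z.cls j = some c ∧ Z.cls l = some c) → ∃ N, 0 < N ∧
      ∀ y : Fin (n + 1 + k) → ℂ, (fun j => Th la mm nu y (mo k j)) ∈ Z.locus →
        MvPolynomial.eval₂ rA y (PsiM lam' mu' (Fin.castAdd k j.castSucc)
          (Fin.castAdd k l.castSucc) N) = 0 := by
    rintro r Z j l hjl ⟨c, hcj, hcl⟩
    obtain ⟨a', b', c', d', hdet, hrel⟩ := Z.rel_unif hcj hcl
    obtain ⟨N, hN⟩ : ∃ N : ℕ, (N : ℤ) = a' * d' - b' * c' :=
      ⟨(a' * d' - b' * c').toNat, by omega⟩
    have hN0 : 0 < N := by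
      have : (0 : ℤ) < N := by rw [hN]; exact hdet
      exact_mod_cast this
    refine ⟨N, hN0, fun y hy => ?_⟩
    obtain ⟨w, w', hww, hw, hw'⟩ := hrel _ hy
    obtain ⟨-, -, -, -, -, -, -, -, -, -, h5⟩ := modular_spec N hN0
    have hΨ := h5 w w' a' b' c' d' hN.symm hww
    rw [← hw, ← hw'] at hΨ
    rw [hΨev, ← hThl, ← hThl]
    exact hΨ
  have hZI : ∀ {r : ℕ} (Z : SV (Γ : Set ℂ) n r), r < n → ∃ f, f ∉ I ∧
      ∀ y : Fin (n + 1 + k) → ℂ,
      (fun j => Th la mm nu y (mo k j)) ∈ Z.locus → MvPolynomial.eval₂ rA y f = 0 := by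
    intro r Z hr
    by_cases hno : ∃ i, Z.cls i = none
    · obtain ⟨i, hi⟩ := hno
      obtain ⟨f, hf, hf'⟩ := hcmI i _ (Z.int i)
      refine ⟨f, hf, fun y hy => hf' y ?_⟩
      obtain ⟨w, hw⟩ := hy
      rw [← hThm]
      exact (hw i).1 hi
    · push Not at hno
      obtain ⟨j, -, l, -, hjl, hc⟩ := coll Z.cls Finset.univ (by simpa using hr)
        (fun x _ => hno x)
      obtain ⟨N, hN, hΨ⟩ := hcollI Z hjl hc
      exact ⟨_, hΨI _ _ (hcs hjl) N hN, hΨ⟩
  -- relations from torsion cosets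
  have hκ0 : ∀ a : Fin k → ℤ, (∏ l, (nu l : QA) ^ a l) ≠ 0 := fun a =>
    Finset.prod_ne_zero_iff.2 fun l _ => zpow_ne_zero _ (hnuQ l)
  have htorI : ∀ (a : Fin k → ℤ), a ≠ 0 → ∀ (τ : ℂ) (o : ℕ), 0 < o → τ ^ o = 1 → ∃ f, f ∉ I ∧
      ∀ y : Fin (n + 1 + k) → ℂ, (∀ l, Th la mm nu y (Fin.natAdd (n + 1) l) ≠ 0) →
        ∏ l, Th la mm nu y (Fin.natAdd (n + 1) l) ^ a l = τ → MvPolynomial.eval₂ rA y f = 0 := by
    intro a ha τ o ho hτ
    obtain ⟨t, ht⟩ := root_QA ho hτ
    refine ⟨mp (ext (n + 1) a) (∏ l, (nu l : QA) ^ a l) t, mp_notin 𝒞 hx2 (ext_ne ha) (hκ0 a),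
      fun y hy0 hy => mp_eval ?_ ?_⟩
    · refine ext_supp (Q := fun i => y i ≠ 0) fun l _ h0 => hy0 l ?_
      rw [hThr, h0, mul_zero]
    · rw [prod_ext, ht, ← hy, map_prod, ← Finset.prod_mul_distrib]
      refine Finset.prod_congr rfl fun l _ => ?_
      rw [hThr, map_zpow₀, map_ratCast, mul_zpow]
  refine ⟨?_, ?_⟩
  · -- finiteness
    -- the pure part
    have hpure := (hD₂ lam mu ⟨p q₀, e q₀, w q₀, (hall q₀).1, by have := (hall q₀).2.1; omega,
      (hall q₀).2.2.1, (hall q₀).2.2.2.2.1⟩).1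
    set F' := {x : Fin n → ℂ | (∃ y ∈ VC (I.comap ren), ∀ i, x i = lam i * y i + mu i) ∧
        ∃ (r : ℕ) (Z : SV (Γ : Set ℂ) n r), r + 2 ≤ n ∧ x ∈ Z.locus} with hF'
    have hVC' : ∀ y ∈ VC I, (fun j => y (mo k j)) ∈ VC (I.comap ren) := by
      intro y hy f hf
      have h1 := hy _ (Ideal.mem_comap.1 hf)
      have h2 : MvPolynomial.eval₂ rA y (MvPolynomial.rename (mo k) f) = 0 := h1
      rw [MvPolynomial.eval₂_rename] at h2
      exact h2
    have hB1 : (⋃ x' ∈ F', {y | y ∈ VC I ∧ (∃ s : Fin (n + 1 + k) → QA, (fun i => rA (s i)) = y) ∧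
        2 ≤ n ∧ ∀ j : Fin n, lam j * y (mo k j) + mu j = x' j}).Finite := by
      refine Set.Finite.biUnion hpure fun x' _ => ?_
      by_cases hn2 : 2 ≤ n
      · set j₀ : Fin n := ⟨0, by omega⟩ with hj₀
        by_cases halg : ∃ s₀ : QA, (lam j₀ : ℂ) * rA s₀ + mu j₀ = x' j₀
        · obtain ⟨s₀, hs₀⟩ := halg
          refine (hzfin _ (hconst (mo k j₀) s₀)).subset ?_
          rintro y ⟨hy, -, -, hyx⟩
          refine ⟨hy, ?_⟩
          rw [MvPolynomial.eval₂_sub, MvPolynomial.eval₂_X, MvPolynomial.eval₂_C]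
          have h1 := hyx j₀
          rw [← hs₀] at h1
          have h2 : (lam j₀ : ℂ) * (y (mo k j₀) - rA s₀) = 0 := by linear_combination h1
          exact (mul_eq_zero.1 h2).resolve_left (hlamC j₀)
        · refine Set.Finite.subset Set.finite_empty ?_
          rintro y ⟨-, ⟨s, hs⟩, -, hyx⟩
          exact halg ⟨s (mo k j₀), by rw [← hyx j₀, ← hs]⟩
      · refine Set.Finite.subset Set.finite_empty ?_
        rintro y ⟨-, -, h2, -⟩
        exact hn2 h2
    -- the modular polynomials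
    set G' := G + (pk q₀).G with hG'
    have hf2 : ∀ q : Fin (n + 1) × Fin (n + 1) × ℕ, ∃ f, f ∉ I ∧ (q.1 ≠ q.2.1 → 0 < q.2.2 →
        f = PsiM lam' mu' (Fin.castAdd k q.1) (Fin.castAdd k q.2.1) q.2.2) := by
      rintro ⟨j, l, N⟩
      by_cases h : j ≠ l ∧ 0 < N
      · exact ⟨_, hΨI j l h.1 N h.2, fun _ _ => rfl⟩
      · exact ⟨1, fun h1 => hIp.ne_top ((Ideal.eq_top_iff_one I).2 h1),
          fun h1 h2 => absurd ⟨h1, h2⟩ h⟩
    choose f₂ hf₂0 hf₂1 using hf2
    have hB2 : (⋃ q ∈ (Finset.univ ×ˢ Finset.univ ×ˢ Finset.range (G' + 1) :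
        Finset (Fin (n + 1) × Fin (n + 1) × ℕ)),
          {y | y ∈ VC I ∧ MvPolynomial.eval₂ rA y (f₂ q) = 0}).Finite :=
      Set.Finite.biUnion (Finset.finite_toSet _) fun q _ => hzfin _ (hf₂0 q)
    have hB2m : ∀ (j l : Fin (n + 1)) (N : ℕ) (y : Fin (n + 1 + k) → ℂ), j ≠ l → 0 < N → N ≤ G' →
        y ∈ VC I → PsiE ιZ (mP N) (mD N) (la j * y (Fin.castAdd k j) + mm j)
        (la l * y (Fin.castAdd k l) + mm l) = 0 →
        y ∈ ⋃ q ∈ (Finset.univ ×ˢ Finset.univ ×ˢ Finset.range (G' + 1) :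
        Finset (Fin (n + 1) × Fin (n + 1) × ℕ)),
          {y | y ∈ VC I ∧ MvPolynomial.eval₂ rA y (f₂ q) = 0} := by
      intro j l N y hjl hN hNG hy h
      rw [Set.mem_iUnion₂]
      refine ⟨(j, l, N), ?_, hy, ?_⟩
      · simp only [Finset.mem_product, Finset.mem_univ, Finset.mem_range, true_and]
        omega
      · rw [hf₂1 (j, l, N) hjl hN]
        show MvPolynomial.eval₂ rA y (PsiM lam' mu' (Fin.castAdd k j) (Fin.castAdd k l) N) = 0
        rw [hΨev]
        exact h
    -- the monomials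
    have hf3 : ∀ q : (Fin k → ℤ) × ℕ, ∃ f, f ∉ I ∧ (q.1 ≠ 0 → 0 < q.2 →
        f = mp (ext (n + 1) (fun l => (q.2 : ℤ) * q.1 l)) (∏ l, (nu l : QA) ^ ((q.2 : ℤ) * q.1 l)) 1) := by
      rintro ⟨b, o⟩
      by_cases h : b ≠ 0 ∧ 0 < o
      · refine ⟨_, mp_notin 𝒞 hx2 (ext_ne ?_) (hκ0 _), fun _ _ => rfl⟩
        intro h0
        apply h.1
        funext l
        have h1 := congrFun h0 l
        simp only [Pi.zero_apply] at h1 ⊢
        rcases mul_eq_zero.1 h1 with h2 | h2
        · have := h.2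
          omega
        · exact h2
      · exact ⟨1, fun h1 => hIp.ne_top ((Ideal.eq_top_iff_one I).2 h1),
          fun h1 h2 => absurd ⟨h1, h2⟩ h⟩
    choose f₃ hf₃0 hf₃1 using hf3
    have hB3 : (⋃ q ∈ ((finite_Bv1 k W').toFinset ×ˢ Finset.range (G + 1) :
        Finset ((Fin k → ℤ) × ℕ)),
          {y | y ∈ VC I ∧ MvPolynomial.eval₂ rA y (f₃ q) = 0}).Finite :=
      Set.Finite.biUnion (Finset.finite_toSet _) fun q _ => hzfin _ (hf₃0 q)
    refine (((hB1.union hB2).union hB3).image (Th la mm nu)).subset ?_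
    rintro x ⟨⟨y, hy, rfl⟩, hx0, hxi0, hxi1, r, t, Z, M, η, hη, ht1, hr, hZ, ht, hM⟩
    refine ⟨y, ?_, rfl⟩
    -- facts about algebraic points
    have hXs : ∀ s : Fin (n + 1 + k) → QA, (fun i => rA (s i)) = y → ∀ j,
        rA ((lam j : QA) * s (mo k j) + mu j) = Th la mm nu y (mo k j) := by
      intro s hs j
      rw [hThm, ← hs, map_add, map_mul, map_ratCast, map_ratCast]
    have hTQ : ∀ s : Fin (n + 1 + k) → QA, (fun i => rA (s i)) = y → t = 1 →
        TorsQ ((lam i₀ : QA) * s (mo k i₀) + mu i₀) ((lamU : QA) * s (eU n k) + muU) := by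
      intro s hs ht'
      refine torsQ_of ?_ ?_ ?_
      · intro h0
        apply hxi0
        rw [← hXs s hs, h0, map_zero]
      · intro h0
        apply hxi1
        rw [← hXs s hs, h0, map_ofNat]
      · have h1 := (ht ht').2
        rw [hXs s hs]
        have h2 : rA ((lamU : QA) * s (eU n k) + muU) = Th la mm nu y (eU n k) := by
          rw [hThU, ← hs, map_add, map_mul, map_ratCast, map_ratCast]
        rw [h2]
        exact h1
    have hcbad : ∀ i, ∀ s, OnV I s → (fun i => rA (s i)) = y → ∀ j, Z.cls j = none →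
        (pk i).bad s (mo k j) := by
      intro i s hsV hs j hj
      refine (pk i).const s hsV _ ?_
      rw [hXpk, hXs s hs]
      obtain ⟨z, hz⟩ := hZ
      rw [show Th la mm nu y (mo k j) = Z.const j from (hz j).1 hj]
      exact Z.int j
    have htbad : ∀ i, ∀ s, OnV I s → (fun i => rA (s i)) = y → t = 1 →
        (pk i).bad s (mo k i₀) ∨ (pk i).bad s (eU n k) := by
      intro i s hsV hs ht'
      refine (pk i).tors s hsV ?_
      rw [hXpk, hUpk]
      exact hTQ s hs ht'
    by_cases hrk : Module.finrank ℤ M = 0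
    · rw [hrk, add_zero] at hr
      by_cases ht' : t = 1
      · -- a torsion point and a special subvariety
        left; right
        obtain ⟨f, hf, hf'⟩ := hZI Z (by omega)
        obtain ⟨s, hs, hsV⟩ := hzalg f hf y hy (hf' y hZ)
        by_cases hno : ∃ j, Z.cls j = none
        · exfalso
          obtain ⟨j, hj⟩ := hno
          have hji : j ≠ i₀ := by
            rintro rfl
            exact (ht ht').1 hj
          have h1 := hcbad q₀ s hsV hs j hj
          rcases htbad q₀ s hsV hs ht' with h2 | h2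
          · exact mo_ne hji ((pk q₀).one s hsV _ _ h1 h2)
          · exact mo_ne_eU j ((pk q₀).one s hsV _ _ h1 h2)
        · push Not at hno
          obtain ⟨j, -, l, -, hjl, cc, hcj, hcl⟩ := coll Z.cls Finset.univ
            (by simp; omega) (fun x _ => hno x)
          obtain ⟨a', b', c', d', hdet, hrel⟩ := Z.rel_unif hcj hcl
          obtain ⟨w1, w2, hww', hw1, hw2⟩ := hrel _ hZ
          obtain ⟨N', h1, h2, h3⟩ := (pk q₀).small s hsV (by
              rw [hXpk, hUpk]
              exact hTQ s hs ht') (mo k j) (mo k l) (mo_ne hjl) (mo_ne_eU j) (mo_ne_eU l) w1 w2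
            a' b' c' d' hdet hww' (by rw [hXpk, hXs s hs]; exact hw1)
            (by rw [hXpk, hXs s hs]; exact hw2)
          refine hB2m j.castSucc l.castSucc N' y (hcs hjl) h1 (h2.trans (by omega)) hy ?_
          rw [← hThl, ← hThl]
          have e1 : Th la mm nu y (Fin.castAdd k j.castSucc) = jj w1 := hw1
          have e2 : Th la mm nu y (Fin.castAdd k l.castSucc) = jj w2 := hw2
          rw [e1, e2]
          exact h3
      · -- the pure case
        have ht0 : t = 0 := by omega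
        rw [ht0, add_zero] at hr
        left; left
        rw [Set.mem_iUnion₂]
        refine ⟨fun j => Th la mm nu y (mo k j), ⟨⟨fun j => y (mo k j), hVC' y hy,
          fun j => hThm y j⟩, r, Z, hr, hZ⟩, hy, ?_, by omega, fun j => (hThm y j).symm⟩
        obtain ⟨f, hf, hf'⟩ := hZI Z (by omega)
        obtain ⟨s, hs, -⟩ := hzalg f hf y hy (hf' y hZ)
        exact ⟨s, hs⟩
    · -- the point is algebraic
      obtain ⟨a, haM, ha0⟩ : ∃ a ∈ M, a ≠ 0 := by
        by_contra hcon
        push Not at hcon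
        have h1 : M = ⊥ := (Submodule.eq_bot_iff M).2 hcon
        rw [h1, finrank_bot] at hrk
        exact hrk rfl
      obtain ⟨o, ho, ho'⟩ := prod_root hη a
      obtain ⟨f, hf, hf'⟩ := htorI a ha0 _ o ho ho'
      obtain ⟨s, hs, hsV⟩ := hzalg f hf y hy (hf' y hx0 (hM a haM))
      have hys : ∀ i, y i = rA (s i) := fun i => by rw [← hs]
      have hXs' : ∀ j : Fin (n + 1), rA ((la j : QA) * s (Fin.castAdd k j) + mm j) =
          Th la mm nu y (Fin.castAdd k j) := by
        intro j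
        rw [hThl, hys, map_add, map_mul, map_ratCast, map_ratCast]
      have hUs : ∀ b : Fin k → ℤ, rA (∏ l, ((nu l : QA) * s (Fin.natAdd (n + 1) l)) ^ b l) =
          ∏ l, Th la mm nu y (Fin.natAdd (n + 1) l) ^ b l := by
        intro b
        rw [map_prod]
        refine Finset.prod_congr rfl fun l _ => ?_
        rw [map_zpow₀, map_mul, map_ratCast, hThr, hys]
      have htorM : ∀ b ∈ M, ∃ o : ℕ, 0 < o ∧
          (∏ l, ((nu l : QA) * s (Fin.natAdd (n + 1) l)) ^ b l) ^ o = 1 := by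
        intro b hb
        obtain ⟨o, ho, ho'⟩ := prod_root hη b
        refine ⟨o, ho, rA.injective ?_⟩
        rw [map_pow, map_one, hUs, hM b hb, ho']
      -- it suffices to treat one system of classes
      have hfinish : ∀ (r' : ℕ) (cls' : Fin (n + 1) → Option (Fin r')),
          r' + 2 ≤ n + 1 + Module.finrank ℤ M →
          (∀ i j, cls' j = none → ∃ j' : Fin (n + 1), (pk i).bad s (Fin.castAdd k j')) →
          (∀ j l c, j ≠ l → cls' j = some c → cls' l = some c → ∃ (w w' : ℍ) (a b c' d : ℤ),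
            0 < a * d - b * c' ∧ (w' : ℂ) * (c' * w + d) = a * w + b ∧
            Th la mm nu y (Fin.castAdd k j) = jj w ∧ Th la mm nu y (Fin.castAdd k l) = jj w') →
          y ∈ ((⋃ x' ∈ F', {y | y ∈ VC I ∧ (∃ s : Fin (n + 1 + k) → QA, (fun i => rA (s i)) = y) ∧
            2 ≤ n ∧ ∀ j : Fin n, lam j * y (mo k j) + mu j = x' j}) ∪
            ⋃ q ∈ (Finset.univ ×ˢ Finset.univ ×ˢ Finset.range (G' + 1) :
            Finset (Fin (n + 1) × Fin (n + 1) × ℕ)),
              {y | y ∈ VC I ∧ MvPolynomial.eval₂ rA y (f₂ q) = 0}) ∪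
            ⋃ q ∈ ((finite_Bv1 k W').toFinset ×ˢ Finset.range (G + 1) :
            Finset ((Fin k → ℤ) × ℕ)), {y | y ∈ VC I ∧ MvPolynomial.eval₂ rA y (f₃ q) = 0} := by
        intro r' cls' hr' hcb hrel
        rcases hG s hsV r' cls' M hr' (by omega) hcb ⟨fun j l cc hjl h1 h2 => by
            obtain ⟨w1, w2, a', b', c', d', hdet, hww', hw1, hw2⟩ := hrel j l cc hjl h1 h2
            exact ⟨w1, w2, a', b', c', d', hdet, hww', (hXs' j).trans hw1, (hXs' l).trans hw2⟩,
          htorM⟩ with ⟨j, l, hjl, N', h1, h2, h3⟩ | ⟨b, hbW, hb0, o, ho, hoG, h3⟩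
        · left; right
          refine hB2m j l N' y hjl h1 (h2.trans (by omega)) hy ?_
          rw [← hThl, ← hThl, ← hXs', ← hXs']
          exact h3
        · right
          rw [Set.mem_iUnion₂]
          refine ⟨(b, o), ?_, hy, ?_⟩
          · simp only [Finset.mem_product, Finset.mem_range, Set.Finite.mem_toFinset,
              Set.mem_setOf_eq]
            exact ⟨hbW, by omega⟩
          · rw [hf₃1 (b, o) hb0 ho]
            refine mp_eval ?_ ?_
            · refine ext_supp (Q := fun i => y i ≠ 0) fun l _ h0 => hx0 l ?_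
              rw [hThr, h0, mul_zero]
            · rw [prod_ext, map_prod, ← Finset.prod_mul_distrib, map_one]
              have h4 := congrArg rA h3
              rw [map_pow, map_one, hUs] at h4
              rw [← h4, ← Finset.prod_pow]
              refine Finset.prod_congr rfl fun l _ => ?_
              rw [hThr, map_zpow₀, map_ratCast, ← mul_zpow, mul_comm (o : ℤ), zpow_mul,
                zpow_natCast]
      have hrelZ : ∀ j l c, Z.cls j = some c → Z.cls l = some c → ∃ (w w' : ℍ) (a b c' d : ℤ),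
            0 < a * d - b * c' ∧ (w' : ℂ) * (c' * w + d) = a * w + b ∧
            Th la mm nu y (mo k j) = jj w ∧ Th la mm nu y (mo k l) = jj w' := by
        intro j l cc hcj hcl
        obtain ⟨a', b', c', d', hdet, hrel⟩ := Z.rel_unif hcj hcl
        obtain ⟨w1, w2, hww', hw1, hw2⟩ := hrel _ hZ
        exact ⟨w1, w2, a', b', c', d', hdet, hww', hw1, hw2⟩
      by_cases ht' : t = 1
      · rw [ht'] at hr
        refine hfinish r (Fin.snoc (α := fun _ => Option (Fin r)) Z.cls none) (by omega) ?_ ?_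
        · intro i j
          refine Fin.lastCases (motive := fun j => (Fin.snoc (α := fun _ => Option (Fin r))
            Z.cls none : Fin (n + 1) → Option (Fin r)) j = none → ∃ j' : Fin (n + 1),
            (pk i).bad s (Fin.castAdd k j')) ?_ ?_ j
          · intro _
            rcases htbad i s hsV hs ht' with h1 | h1
            · exact ⟨i₀.castSucc, h1⟩
            · exact ⟨Fin.last n, h1⟩
          · intro j hj
            rw [Fin.snoc_castSucc (α := fun _ => Option (Fin r))] at hj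
            exact ⟨j.castSucc, hcbad i s hsV hs j hj⟩
        · intro j l cc hjl
          refine Fin.lastCases (motive := fun j => (Fin.snoc (α := fun _ => Option (Fin r))
            Z.cls none : Fin (n + 1) → Option (Fin r)) j = some cc →
            (Fin.snoc (α := fun _ => Option (Fin r))
            Z.cls none : Fin (n + 1) → Option (Fin r)) l = some cc → ∃ (w w' : ℍ) (a b c' d : ℤ),
            0 < a * d - b * c' ∧ (w' : ℂ) * (c' * w + d) = a * w + b ∧
            Th la mm nu y (Fin.castAdd k j) = jj w ∧ Th la mm nu y (Fin.castAdd k l) = jj w')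
            ?_ ?_ j
          · intro h
            rw [Fin.snoc_last (α := fun _ => Option (Fin r))] at h
            exact absurd h (by simp)
          · intro j hj
            refine Fin.lastCases (motive := fun l => (Fin.snoc (α := fun _ => Option (Fin r))
              Z.cls none : Fin (n + 1) → Option (Fin r)) l = some cc →
              ∃ (w w' : ℍ) (a b c' d : ℤ),
              0 < a * d - b * c' ∧ (w' : ℂ) * (c' * w + d) = a * w + b ∧
              Th la mm nu y (Fin.castAdd k j.castSucc) = jj w ∧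
              Th la mm nu y (Fin.castAdd k l) = jj w') ?_ ?_ l
            · intro h
              rw [Fin.snoc_last (α := fun _ => Option (Fin r))] at h
              exact absurd h (by simp)
            · intro l hl
              rw [Fin.snoc_castSucc (α := fun _ => Option (Fin r))] at hj hl
              exact hrelZ j l cc hj hl
      · have ht0 : t = 0 := by omega
        rw [ht0, add_zero] at hr
        refine hfinish (r + 1) (Fin.snoc (α := fun _ => Option (Fin (r + 1)))
          (fun j => (Z.cls j).map Fin.castSucc) (some (Fin.last r))) (by omega) ?_ ?_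
        · intro i j
          refine Fin.lastCases (motive := fun j => (Fin.snoc (α := fun _ => Option (Fin (r + 1)))
            (fun j => (Z.cls j).map Fin.castSucc) (some (Fin.last r)) :
            Fin (n + 1) → Option (Fin (r + 1))) j = none → ∃ j' : Fin (n + 1),
            (pk i).bad s (Fin.castAdd k j')) ?_ ?_ j
          · intro h
            rw [Fin.snoc_last (α := fun _ => Option (Fin (r + 1)))] at h
            exact absurd h (by simp)
          · intro j hj
            rw [Fin.snoc_castSucc (α := fun _ => Option (Fin (r + 1))), Option.map_eq_none_iff] at hj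
            exact ⟨j.castSucc, hcbad i s hsV hs j hj⟩
        · intro j l cc hjl
          refine Fin.lastCases (motive := fun j => j ≠ l → (Fin.snoc (α := fun _ => Option (Fin (r + 1)))
            (fun j => (Z.cls j).map Fin.castSucc) (some (Fin.last r)) :
            Fin (n + 1) → Option (Fin (r + 1))) j = some cc →
            (Fin.snoc (α := fun _ => Option (Fin (r + 1)))
            (fun j => (Z.cls j).map Fin.castSucc) (some (Fin.last r)) :
            Fin (n + 1) → Option (Fin (r + 1))) l = some cc → ∃ (w w' : ℍ) (a b c' d : ℤ),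
            0 < a * d - b * c' ∧ (w' : ℂ) * (c' * w + d) = a * w + b ∧
            Th la mm nu y (Fin.castAdd k j) = jj w ∧ Th la mm nu y (Fin.castAdd k l) = jj w')
            ?_ ?_ j hjl
          · intro hne hj
            rw [Fin.snoc_last (α := fun _ => Option (Fin (r + 1)))] at hj
            have hcc := Option.some.inj hj
            refine Fin.lastCases (motive := fun l => Fin.last n ≠ l →
              (Fin.snoc (α := fun _ => Option (Fin (r + 1)))
              (fun j => (Z.cls j).map Fin.castSucc) (some (Fin.last r)) :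
              Fin (n + 1) → Option (Fin (r + 1))) l = some cc → ∃ (w w' : ℍ) (a b c' d : ℤ),
              0 < a * d - b * c' ∧ (w' : ℂ) * (c' * w + d) = a * w + b ∧
              Th la mm nu y (Fin.castAdd k (Fin.last n)) = jj w ∧
              Th la mm nu y (Fin.castAdd k l) = jj w') ?_ ?_ l hne
            · intro h
              exact absurd rfl h
            · intro l _ hl
              rw [Fin.snoc_castSucc (α := fun _ => Option (Fin (r + 1)))] at hl
              obtain ⟨c', -, hc'⟩ := Option.map_eq_some_iff.1 hl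
              rw [← hcc] at hc'
              exact absurd hc' (Fin.castSucc_lt_last c').ne
          · intro j hne hj
            rw [Fin.snoc_castSucc (α := fun _ => Option (Fin (r + 1)))] at hj
            obtain ⟨c₁, hc₁, hc₁'⟩ := Option.map_eq_some_iff.1 hj
            refine Fin.lastCases (motive := fun l =>
              (Fin.snoc (α := fun _ => Option (Fin (r + 1)))
              (fun j => (Z.cls j).map Fin.castSucc) (some (Fin.last r)) :
              Fin (n + 1) → Option (Fin (r + 1))) l = some cc → ∃ (w w' : ℍ) (a b c' d : ℤ),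
              0 < a * d - b * c' ∧ (w' : ℂ) * (c' * w + d) = a * w + b ∧
              Th la mm nu y (Fin.castAdd k j.castSucc) = jj w ∧
              Th la mm nu y (Fin.castAdd k l) = jj w') ?_ ?_ l
            · intro h
              rw [Fin.snoc_last (α := fun _ => Option (Fin (r + 1)))] at h
              have hcc := Option.some.inj h
              rw [← hcc] at hc₁'
              exact absurd hc₁' (Fin.castSucc_lt_last c₁).ne
            · intro l hl
              rw [Fin.snoc_castSucc (α := fun _ => Option (Fin (r + 1)))] at hl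
              obtain ⟨c₂, hc₂, hc₂'⟩ := Option.map_eq_some_iff.1 hl
              have hcc : c₁ = c₂ := Fin.castSucc_injective r (hc₁'.trans hc₂'.symm)
              rw [← hcc] at hc₂
              exact hrelZ j l c₁ hc₁ hc₂
  · -- not contained in a proper special subvariety
    intro r Z M η hη hr
    by_contra hcon
    push Not at hcon
    have hfac : ∀ c₀ : ℚ, ∃ f : MvPolynomial (Fin (n + 1 + k)) QA, f ∉ I ∧ ∀ y,
        Th la mm nu y (mo k i₀) = c₀ → MvPolynomial.eval₂ rA y f = 0 := by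
      intro c₀
      refine ⟨_, hconst (mo k i₀) ((c₀ - mu i₀) / lam i₀), fun y hy => ?_⟩
      rw [MvPolynomial.eval₂_sub, MvPolynomial.eval₂_X, MvPolynomial.eval₂_C, map_div₀, map_sub,
        map_ratCast, map_ratCast, map_ratCast, ← hy, hThm]
      have := hlamC i₀
      field_simp
      ring
    obtain ⟨g₁, hg₁, hg₁'⟩ := hfac 0
    obtain ⟨g₂, hg₂, hg₂'⟩ := hfac 1728
    have hvan : ∀ f, (∀ y ∈ VC I, (∀ l, Th la mm nu y (Fin.natAdd (n + 1) l) ≠ 0) →
        Th la mm nu y (mo k i₀) ≠ 0 → Th la mm nu y (mo k i₀) ≠ 1728 →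
        MvPolynomial.eval₂ rA y f = 0) → f ∈ I := by
      intro f hf
      have h1 : f * g₁ * g₂ * ∏ l : Fin k, MvPolynomial.X (Fin.natAdd (n + 1) l) ∈
          MvPolynomial.vanishingIdeal QA (MvPolynomial.zeroLocus ℂ I) := by
        intro y hy
        have hyV : y ∈ VC I := fun g hg => hy g hg
        have e : MvPolynomial.aeval y (f * g₁ * g₂ * ∏ l : Fin k, MvPolynomial.X (Fin.natAdd (n + 1) l)) =
            MvPolynomial.eval₂ rA y f * MvPolynomial.eval₂ rA y g₁ * MvPolynomial.eval₂ rA y g₂ *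
              ∏ l : Fin k, y (Fin.natAdd (n + 1) l) := by
          rw [map_mul, map_mul, map_mul, map_prod]
          simp only [MvPolynomial.aeval_X]
          rfl
        rw [e]
        by_cases hi : Th la mm nu y (mo k i₀) = 0
        · rw [hg₁' y (by rw [hi]; simp), mul_zero, zero_mul, zero_mul]
        by_cases hi' : Th la mm nu y (mo k i₀) = 1728
        · rw [hg₂' y (by rw [hi']; simp), mul_zero, zero_mul]
        by_cases hl : ∀ l, Th la mm nu y (Fin.natAdd (n + 1) l) ≠ 0
        · rw [hf y hyV hl hi hi', zero_mul, zero_mul, zero_mul]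
        · push Not at hl
          obtain ⟨l, hl⟩ := hl
          rw [hThr] at hl
          rw [Finset.prod_eq_zero (Finset.mem_univ l)
            ((mul_eq_zero.1 hl).resolve_left (hnuC l)), mul_zero]
      rw [MvPolynomial.IsPrime.vanishingIdeal_zeroLocus] at h1
      rcases hIp.mem_or_mem h1 with h2 | h2
      · rcases hIp.mem_or_mem h2 with h3 | h3
        · rcases hIp.mem_or_mem h3 with h4 | h4
          · exact h4
          · exact absurd h4 hg₁
        · exact absurd h3 hg₂
      · exfalso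
        rw [hIp.prod_mem_iff] at h2
        obtain ⟨l, -, hl⟩ := h2
        exact hconst (Fin.natAdd (n + 1) l) 0 (by rw [map_zero, sub_zero]; exact hl)
    by_cases hrn : r < n
    · obtain ⟨f, hf, hf'⟩ := hZI Z hrn
      exact hf (hvan f fun y hy hl h0 h1 => hf' y (hcon y hy hl h0 h1).1)
    · obtain ⟨a, haM, ha0⟩ : ∃ a ∈ M, a ≠ 0 := by
        by_contra hcon'
        push Not at hcon'
        have h1 : M = ⊥ := (Submodule.eq_bot_iff M).2 hcon'
        rw [h1, finrank_bot] at hr
        omega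
      obtain ⟨o, ho, ho'⟩ := prod_root hη a
      obtain ⟨f, hf, hf'⟩ := htorI a ha0 _ o ho ho'
      exact hf (hvan f fun y hy hl h0 h1 => hf' y hl ((hcon y hy hl h0 h1).2 a haM))

end Pool.Agent.Y226.ZE
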