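import Pool.Agent.Y226.ZM.Near

/-!
# An isogenous pair of coordinates and a coordinate close to zero
-/

set_option autoImplicit false
set_option linter.unusedSectionVars false

open UpperHalfPlane H294ZP Polynomial

namespace Pool.Agent.Y226.ZG

open Pool.Agent.Y226 Pool.Agent.Y226.ZM

namespace Loc

variable {C : Type} [NormedField C] [IsUltrametricDist C] [CompleteSpace C] [CharZero C]
  [IsAlgClosed C] {p : ℕ} [hpf : Fact p.Prime] {k : Type}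
  [Field k] {n N W M d D : ℕ} (𝓛 : Loc C p k n N W M d D)

/-- the coordinates of an isogenous pair are not nearly integral -/
theorem small_ne {X : Fin n → QA} {x : Fin n → C} (hx : 𝓛.Pt x)
    (hX : ∀ i, 𝓛.φ (X i) = 𝓛.Λ i * x i + 𝓛.tm i) {a : Fin n} (hsmall : ‖𝓛.φ (X a)‖ ≤ 1)
    {j l : Fin n} (hjl : j ≠ l) {τ w : ℍ} {a' b' c d' : ℤ} (hdet : 0 < a' * d' - b' * c)
    (hrel : (w : ℂ) * (c * τ + d') = a' * τ + b') (hjτ : rA (X j) = jj τ)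
    (hlw : rA (X l) = jj w) : j ≠ a ∧ l ≠ a := by
  have hψn : ∀ z, ‖(𝓛.φ.comp iA) z‖ ≤ 1 := psi_norm 𝓛.φ
  have hxa := 𝓛.small_bad (hX a) hsmall
  have ha : ‖x a‖ ≠ 1 := (hxa.trans_lt 𝓛.hp1).ne
  have hgood : ∀ i, i ≠ a → ‖x i‖ = 1 := fun i hi => (𝓛.one_bad hx hi).resolve_right ha
  have hgt : ∀ i, i ≠ a → 1 < ‖𝓛.φ (X i)‖ := fun i hi => 𝓛.X_gt (hX i) (hgood i hi)
  have hja : j ≠ a := by
    rintro rfl
    have h1 := hgt l hjl.symm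
    have h2 : ‖𝓛.φ (X l)‖ ≤ 1 := by
      refine norm_le_one_of_adjoin 𝓛.φ (Γ := {jj τ}) ?_ (by
        rw [hlw]; exact isogenous_integral τ w a' b' c d' hdet hrel)
      intro γ hγ
      rw [Set.mem_singleton_iff] at hγ
      exact ⟨X j, by rw [hjτ, hγ], hsmall⟩
    exact absurd h1 (not_lt.2 h2)
  refine ⟨hja, ?_⟩
  rintro rfl
  obtain ⟨A', B', g, ζ, -, -, -, -, -, -, hi1, -⟩ :=
    tate_rel (ψ := 𝓛.φ.comp iA) (i₀ := iA) hψn rA_comp rfl hdet hrel hjτ hlw (hgt j hjl)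
  exact absurd hi1 (not_lt.2 hsmall)

/-- an isogenous pair in the presence of a coordinate close to zero -/
theorem level_bad : ∃ G : ℕ, ∀ (X : Fin n → QA) (x : Fin n → C),
    𝓛.Pt x → (∀ i, 𝓛.φ (X i) = 𝓛.Λ i * x i + 𝓛.tm i) → ∀ a, ‖x a‖ ≤ ‖(p : C)‖ →
    ∀ j l : Fin n, j ≠ a → l ≠ a → ∀ (τ w : ℍ) (a' b' c d' : ℤ), 0 < a' * d' - b' * c →
    (w : ℂ) * (c * τ + d') = a' * τ + b' → rA (X j) = jj τ → rA (X l) = jj w →
    ∃ N' : ℕ, 0 < N' ∧ N' ≤ G ∧ PsiE ιZ (mP N') (mD N') (rA (X j)) (rA (X l)) = 0 := by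
  classical
  choose κ hκ using 𝓛.exists_κ
  obtain ⟨S, hS, hSx⟩ := 𝓛.resid_bad
  obtain ⟨G, hG⟩ := 𝓛.order_bound hS
  refine ⟨W * W * (G * p ^ 0) ^ 2, ?_⟩
  intro X x hx hX a hxa j l hja hla τ w a' b' c d' hdet hrel hjτ hlw
  have ha : ‖x a‖ ≠ 1 := (hxa.trans_lt 𝓛.hp1).ne
  have hgood : ∀ i, i ≠ a → ‖x i‖ = 1 := fun i hi => (𝓛.one_bad hx hi).resolve_right ha
  have hYex : ∀ i, ∃ y : Cˣ, ‖x i‖ = 1 → (y : C) = x i := by
    intro i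
    by_cases h : ‖x i‖ = 1
    · exact ⟨Units.mk0 (x i) (norm_pos_iff.1 (by rw [h]; exact one_pos)), fun _ => rfl⟩
    · exact ⟨1, fun h' => absurd h' h⟩
  choose Y hY using hYex
  have hj := hgood j hja
  have hl := hgood l hla
  obtain ⟨A, B, g', s, ζ', ε, hP, -⟩ := 𝓛.PI_of_rel hκ hX hj hl (hY j hj) (hY l hl)
    hdet hrel hjτ hlw
  have hYj : ‖((Y j : Cˣ) : C)‖ = 1 := by rw [hY j hj]; exact hj
  have hYl : ‖((Y l : Cˣ) : C)‖ = 1 := by rw [hY l hl]; exact hl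
  have hg : g' ≤ G := hG κ Y X j l A B g' s ζ' ε hP ⟨x j, hj.le⟩ ⟨x l, hl.le⟩ (hY j hj).symm
    (hY l hl).symm hYj hYl (hSx x hx a ha j hja _ rfl) (hSx x hx a ha l hla _ rfl)
  have hs0 : s = 0 := by
    by_contra hs
    obtain ⟨t, rfl⟩ : ∃ t, s = t + 1 := ⟨s - 1, by omega⟩
    obtain ⟨s', z, e, hz, hC, heX, hn, hs', hroot⟩ := 𝓛.bad_data hx ha
    obtain ⟨y, hy, hxy⟩ := hroot j hja
    obtain ⟨y', hy', hxy'⟩ := hroot l hla
    have hzN : ‖z‖ ^ N ≤ ‖(p : C)‖ := by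
      rcases hs' with ⟨-, -, h⟩ | ⟨h, -, -⟩
      · rw [← norm_pow, h]; exact hxa
      · exact absurd (hxa.trans_lt 𝓛.hp1) (not_lt.2 h.le)
    exact 𝓛.no_wild_cm (Y := Y) (j := j) (l := l) hz hC heX hn hzN
      (by rw [hY j hj]; exact hxy) (by rw [hY l hl]; exact hxy') hP.hε (hP.mem_GG hYj hYl)
  subst hs0
  refine ⟨A * B * (g' * p ^ 0) ^ 2, ?_, ?_, hP.hrel⟩
  · have h2 := hpf.out.pos
    have h3 := hP.hA
    have h4 := hP.hB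
    have h5 := hP.hg
    positivity
  · exact Nat.mul_le_mul (Nat.mul_le_mul hP.hAW hP.hBW) (Nat.pow_le_pow_left
      (Nat.mul_le_mul hg le_rfl) 2)

end Loc

end Pool.Agent.Y226.ZG
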