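import Pool.Agent.Y226.ZE.Near2
import Pool.Agent.Y226.ZE.Main

/-!
# The information at one prime, with a torsion point
-/

set_option autoImplicit false
set_option linter.unusedSectionVars false

open UpperHalfPlane H294ZP Polynomial

namespace Pool.Agent.Y226.ZE

open Pool.Agent.Y226 Pool.Agent.Y226.ZG Pool.Agent.Y226.ZM Pool.Agent.Y237.SA

open Classical in
/-- `U` is the abscissa of a torsion point of the curve with `j`-invariant `X` -/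
def TorsQ (X U : QA) : Prop := U ∈ TX (co X) (co X)

/-- the information at one prime -/
structure PkgE {n : ℕ} (I : Ideal (MvPolynomial (Fin n) QA)) (Γ : Set ℂ) (W p : ℕ)
    (lam mu nu : Fin n → ℚ) (i₀ e₀ : Fin n) extends Pkg I Γ W p lam mu nu where
  tors : ∀ P, OnV I P → TorsQ ((lam i₀ : QA) * P i₀ + mu i₀) ((lam e₀ : QA) * P e₀ + mu e₀) →
    bad P i₀ ∨ bad P e₀
  small : ∀ P, OnV I P → TorsQ ((lam i₀ : QA) * P i₀ + mu i₀) ((lam e₀ : QA) * P e₀ + mu e₀) →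
    ∀ j l, j ≠ l → j ≠ e₀ → l ≠ e₀ → ∀ (τ w : ℍ) (a b' c d' : ℤ),
    0 < a * d' - b' * c → (w : ℂ) * (c * τ + d') = a * τ + b' →
    rA ((lam j : QA) * P j + mu j) = jj τ → rA ((lam l : QA) * P l + mu l) = jj w →
    ∃ N' : ℕ, 0 < N' ∧ N' ≤ G ∧ PsiE ιZ (mP N') (mD N') (jj τ) (jj w) = 0

theorem exists_pkgE {𝔽 : Type} [Field 𝔽] [Algebra QA 𝔽] {n : ℕ} (𝒞 : GP QA 𝔽 n)
    {I : Ideal (MvPolynomial (Fin n) QA)}
    (hI : ∀ f : MvPolynomial (Fin n) QA, MvPolynomial.aeval 𝒞.x f = 0 ↔ f ∈ I) (W : ℕ)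
    (Γ : Finset ℂ) (hΓ : ∀ γ ∈ Γ, IsAlgebraic ℚ γ) (i₀ e₀ : Fin n) :
    ∃ D₀ : ℕ, ∀ (p : ℕ) [Fact p.Prime], D₀ < p → ∀ (lam mu nu : Fin n → ℚ) (w : Fin n → ℕ)
      (e : ℕ), 0 < e → (∀ i, 0 < w i ∧ w i ≤ W) →
      (∀ i, padicValRat p (lam i) = -((w i : ℤ) * e)) →
      (∀ i, padicValRat p (lam i) < padicValRat p (mu i)) → (∀ i, nu i ≠ 0) → 3 ≤ w e₀ * e →
      Nonempty (PkgE I (Γ : Set ℂ) W p lam mu nu i₀ e₀) := by
  classical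
  obtain ⟨D₁, hD₁⟩ := exists_loc 𝒞 hI W
  have hΓ' : ∀ γ : ℂ, ∃ c : QA, IsAlgebraic ℚ γ → rA c = γ := by
    intro γ
    by_cases h : IsAlgebraic ℚ γ
    · exact ⟨⟨γ, mem_QA.2 h⟩, fun _ => rfl⟩
    · exact ⟨0, fun h' => absurd h' h⟩
  choose cc hcc using hΓ'
  choose Di hDi using integral_large
  refine ⟨D₁ + ∑ γ ∈ Γ, Di (cc γ) + 3, ?_⟩
  intro p hpf hp lam mu nu w e he hw hval hmu hnu h3
  obtain ⟨C, _, _, _, _, _, φ, hpn⟩ := exists_padic p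
  have hpR : (1 : ℝ) < p := by exact_mod_cast hpf.out.one_lt
  have hp0 : 0 < ‖(p : C)‖ := by rw [hpn]; exact inv_pos.2 (by linarith)
  have hp1 : ‖(p : C)‖ < 1 := by rw [hpn]; exact inv_lt_one_of_one_lt₀ hpR
  obtain ⟨k, _, _, _, red, hker⟩ := exists_residue2 (C := C) (p := p) hp1
  obtain ⟨M, d, D, 𝓛, hφ, hΛ, htm, hPt, hunit⟩ := hD₁ p (by omega) C φ hp0 hp1 k red hker lam mu w
    e he hw hval hmu
  have hWM : W ≤ M := by
    have := 𝓛.hM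
    have h2 : 0 ≤ W * 𝒞.N := Nat.zero_le _
    omega
  have hBM : ∀ b : Fin n → ℤ, Bv W b → Bv M b := fun b hb i => (hb i).trans (by exact_mod_cast hWM)
  have hX : ∀ P : Fin n → QA, ∀ i, 𝓛.φ ((lam i : QA) * P i + mu i) =
      𝓛.Λ i * φ (P i) + 𝓛.tm i := fun P i => by
    rw [hφ, map_add, map_mul, map_ratCast, map_ratCast, hΛ, htm]
  -- the constants
  have hnuC : ∀ i, (nu i : C) ≠ 0 := fun i => by exact_mod_cast hnu i
  have hκne : ∀ b : Fin n → ℤ, (∏ i, (nu i : C) ^ b i) ≠ 0 := fun b =>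
    Finset.prod_ne_zero_iff.2 fun i _ => zpow_ne_zero _ (hnuC i)
  have hκnorm : ∀ b : Fin n → ℤ, ‖∏ i, (nu i : C) ^ b i‖ =
      ‖(p : C)‖ ^ (∑ i, b i * padicValRat p (nu i)) := by
    intro b
    rw [norm_prod, ← prod_zpow' hp0.ne']
    refine Finset.prod_congr rfl fun i _ => ?_
    rw [norm_zpow, rat_norm hp0 hp1 (hnu i), ← zpow_mul, mul_comm]
  have hκGG : ∀ b : Fin n → ℤ, ∑ i, b i * padicValRat p (nu i) = 0 →
      Units.mk0 _ (hκne b) ∈ GG C p 0 le_rfl one_pos := by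
    intro b hb
    have hq0 : (∏ i, nu i ^ b i) ≠ 0 := Finset.prod_ne_zero_iff.2 fun i _ => zpow_ne_zero _ (hnu i)
    have hcast : ((∏ i, nu i ^ b i : ℚ) : C) = ∏ i, (nu i : C) ^ b i := by push_cast; rfl
    have hv0 : padicValRat p (∏ i, nu i ^ b i) = 0 := by
      have h1 := rat_norm (C := C) hp0 hp1 hq0
      rw [hcast, hκnorm, hb, zpow_zero] at h1
      by_contra hne
      have h2 : ‖(p : C)‖ ^ (padicValRat p (∏ i, nu i ^ b i)) = ‖(p : C)‖ ^ (0 : ℤ) := by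
        rw [← h1, zpow_zero]
      exact hne (zpow_right_injective₀ hp0 hp1.ne h2)
    have h1 := rat_unit (C := C) hp1 hv0 hq0
    rw [hcast] at h1
    exact GG_of_close h1.1 h1.2 (by simp)
  -- the torsion point
  have hsm : ∀ P, OnV I P → TorsQ ((lam i₀ : QA) * P i₀ + mu i₀) ((lam e₀ : QA) * P e₀ + mu e₀) →
      ‖φ ((lam i₀ : QA) * P i₀ + mu i₀)‖ ≤ 1 ∨ ‖φ (P e₀)‖ ≤ ‖(p : C)‖ := by
    intro P hP hT
    by_contra hcon
    push Not at hcon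
    obtain ⟨h1, h2⟩ := hcon
    have h4 := tors_small hp0 hp1 (by omega) φ h1 hT
    have h5 := 𝓛.X_norm (i := e₀) (x := φ (P e₀)) (X := 𝓛.φ ((lam e₀ : QA) * P e₀ + mu e₀)) (hX P e₀) h2
    have hl0 : lam e₀ ≠ 0 := by
      intro h0
      have h6 : (𝓛.Λ e₀ : C) = 0 := by rw [hΛ, h0, Rat.cast_zero]
      exact (𝓛.Λ e₀).ne_zero h6
    rw [hφ] at h5
    rw [h5, hΛ, rat_norm hp0 hp1 hl0, hval] at h4
    have h6 : (3 : ℤ) ≤ (w e₀ : ℤ) * e := by exact_mod_cast h3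
    have h7 : (‖(p : C)‖ : ℝ) ^ (-3 : ℤ) ≤ ‖(p : C)‖ ^ (-((w e₀ : ℤ) * e)) :=
      zpow_le_zpow_right_of_le_one₀ hp0 hp1.le (by omega)
    have h8 : ‖(p : C)‖ ^ (-3 : ℤ) * ‖(p : C)‖ < ‖(p : C)‖ ^ (-((w e₀ : ℤ) * e)) * ‖φ (P e₀)‖ :=
      mul_lt_mul' h7 h2 hp0.le (by positivity)
    have h9 : ‖(p : C)‖ ^ (-3 : ℤ) * ‖(p : C)‖ = (‖(p : C)‖⁻¹) ^ 2 := by
      rw [zpow_neg, inv_pow]
      have : (‖(p : C)‖ : ℝ) ^ (3 : ℤ) = ‖(p : C)‖ ^ 2 * ‖(p : C)‖ := by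
        have e3 : (3 : ℤ) = ((3 : ℕ) : ℤ) := rfl
        rw [e3, zpow_natCast]
        ring
      rw [this, mul_inv, mul_assoc, inv_mul_cancel₀ hp0.ne', mul_one]
    rw [h9] at h8
    exact absurd h4 (not_le.2 h8)
  obtain ⟨G₄, hG₄⟩ := 𝓛.level_bad
  -- the bounds
  obtain ⟨G₁, hG₁⟩ := 𝓛.level_bound
  have h2 : ∀ b : Fin n → ℤ, ∃ G : ℕ, ∑ i, b i * padicValRat p (nu i) = 0 → ∀ (x : Fin n → C),
      𝓛.Pt x → (∃ a, ‖x a‖ ≠ 1) → (∀ i, b i ≠ 0 → ‖x i‖ = 1) → ∀ (ζ : C) (o : ℕ), 0 < o →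
      IsPrimitiveRoot ζ o → (∏ i, (nu i : C) ^ b i) * ∏ i, x i ^ b i = ζ →
      ∃ o' s : ℕ, 0 < o' ∧ o' ≤ G ∧ o'.Coprime p ∧ o = o' * p ^ s := by
    intro b
    by_cases hb : ∑ i, b i * padicValRat p (nu i) = 0
    · obtain ⟨G, hG⟩ := 𝓛.mul_bad (Units.mk0 _ (hκne b)) (GG_norm (hκGG b hb)) b
      exact ⟨G, fun _ => hG⟩
    · exact ⟨0, fun h => absurd h hb⟩
  choose G₂ hG₂ using h2
  have h3 : ∀ b : Fin n → ℤ, ∃ G : ℕ, Bv W b → b ≠ 0 → ∑ i, b i * padicValRat p (nu i) = 0 →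
      ∀ (X : Fin n → QA) (x : Fin n → C),
      𝓛.Pt x → (∀ i, 𝓛.φ (X i) = 𝓛.Λ i * x i + 𝓛.tm i) → (∀ i, ‖x i‖ = 1) →
      ∀ j l : Fin n, j ≠ l → b j = 0 → b l = 0 → ∀ (τ w : ℍ) (a b' c d' : ℤ), 0 < a * d' - b' * c →
      (w : ℂ) * (c * τ + d') = a * τ + b' → rA (X j) = jj τ → rA (X l) = jj w →
      ∀ (ζ : C) (o : ℕ), 0 < o → IsPrimitiveRoot ζ o →
      (∏ i, (nu i : C) ^ b i) * ∏ i, x i ^ b i = ζ →
      ∃ N' : ℕ, 0 < N' ∧ N' ≤ G ∧ PsiE ιZ (mP N') (mD N') (rA (X j)) (rA (X l)) = 0 := by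
    intro b
    by_cases hb : Bv W b ∧ b ≠ 0 ∧ ∑ i, b i * padicValRat p (nu i) = 0
    · obtain ⟨G, hG⟩ := 𝓛.local_mix (hBM b hb.1) hb.2.1 (hκGG b hb.2.2)
      exact ⟨G, fun _ _ _ => hG⟩
    · exact ⟨0, fun h1 h2 h3 => absurd ⟨h1, h2, h3⟩ hb⟩
  choose G₃ hG₃ using h3
  set F := (finite_Bv1 n W).toFinset with hF
  have hFm : ∀ b, Bv W b → b ∈ F := fun b hb => (finite_Bv1 n W).mem_toFinset.2 hb
  have hG₂F : ∀ b, Bv W b → G₂ b ≤ ∑ b ∈ F, G₂ b := fun b hb =>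
    Finset.single_le_sum (f := G₂) (fun _ _ => Nat.zero_le _) (hFm b hb)
  have hG₃F : ∀ b, Bv W b → G₃ b ≤ ∑ b ∈ F, G₃ b := fun b hb =>
    Finset.single_le_sum (f := G₃) (fun _ _ => Nat.zero_le _) (hFm b hb)
  have hmon : ∀ (P : Fin n → QA) (b : Fin n → ℤ), φ (∏ i, ((nu i : QA) * P i) ^ b i) =
      (∏ i, (nu i : C) ^ b i) * ∏ i, φ (P i) ^ b i := by
    intro P b
    rw [map_prod, ← prod_mul_zpow]
    refine Finset.prod_congr rfl fun i _ => ?_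
    rw [map_zpow₀, map_mul, map_ratCast]
  refine ⟨⟨⟨fun P i => ‖φ (P i)‖ ≠ 1, G₁ + ∑ b ∈ F, G₂ b + ∑ b ∈ F, G₃ b + G₄, ?_, ?_, ?_, ?_, ?_, ?_⟩, ?_, ?_⟩⟩
  · intro P hP i j hi hj
    by_contra hij
    rcases 𝓛.one_bad (hPt P hP) hij with h | h
    · exact hi h
    · exact hj h
  · intro P hP b hb o ho hroot
    have h1 := congrArg φ hroot
    rw [map_pow, map_one, hmon] at h1
    have h2 := Loc.root_norm ho h1
    rw [norm_mul, hκnorm, Loc.mon_norm (fun i hi => not_not.1 (hb i hi)), mul_one] at h2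
    by_contra hne
    refine hne (zpow_right_injective₀ hp0 hp1.ne ?_)
    show ‖(p : C)‖ ^ (∑ i, b i * padicValRat p (nu i)) = ‖(p : C)‖ ^ (0 : ℤ)
    rw [h2, zpow_zero]
  · intro P hP i hint hgood
    have h1 : ‖φ ((lam i : QA) * P i + mu i)‖ ≤ 1 := by
      refine norm_le_one_of_adjoin φ (fun γ hγ => ⟨cc γ, hcc γ (hΓ γ hγ), ?_⟩) hint
      refine hDi (cc γ) p ?_ C φ hp1
      have : Di (cc γ) ≤ ∑ γ ∈ Γ, Di (cc γ) :=
        Finset.single_le_sum (f := fun γ => Di (cc γ)) (fun _ _ => Nat.zero_le _) hγ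
      omega
    have h2 := 𝓛.X_gt (i := i) (x := φ (P i)) (X := 𝓛.φ ((lam i : QA) * P i + mu i)) (hX P i) hgood
    rw [hφ] at h2
    exact absurd h1 (not_le.2 h2)
  · intro P hP j l hj hl τ w' hjτ hlw N₀ hN₀ hΨ hmin
    obtain ⟨A, B, g', s, h1, h2, h3, h4, h5, h6, h7, h8⟩ := hG₁
      (fun i => (lam i : QA) * P i + mu i) (fun i => φ (P i)) (hPt P hP) (hX P) j l
      (not_not.1 hj) (not_not.1 hl) τ w' hjτ hlw N₀ hN₀ hΨ hmin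
    exact ⟨A, B, g', s, h1, h2, h3, h4, h5, h6, h7, fun ha => (h8 ha).trans (by omega)⟩
  · intro P hP b hbW hb ha hsupp ρ o ho hρ hrel
    have h1 := congrArg φ hrel
    rw [hmon] at h1
    obtain ⟨o', s, h2, h3, h4, h5⟩ := hG₂ b hb (fun i => φ (P i)) (hPt P hP) ha
      (fun i hi => not_not.1 (hsupp i hi)) (φ ρ) o ho (hρ.map_of_injective φ.injective) h1
    have h6 := hG₂F b hbW
    exact ⟨o', s, h2, by omega, h4, h5⟩
  · intro P hP b hbW hb0 hb hall j l hjl hbj hbl τ w' a b' c d' hdet hww hjτ hlw ρ o ho hρ hrel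
    have h1 := congrArg φ hrel
    rw [hmon] at h1
    obtain ⟨N', h2, h3, h4⟩ := hG₃ b hbW hb0 hb (fun i => (lam i : QA) * P i + mu i)
      (fun i => φ (P i)) (hPt P hP) (hX P) (fun i => not_not.1 (hall i)) j l hjl hbj hbl τ w'
      a b' c d' hdet hww hjτ hlw (φ ρ) o ho (hρ.map_of_injective φ.injective) h1
    have h6 := hG₃F b hbW
    refine ⟨N', h2, by omega, ?_⟩
    rw [← hjτ, ← hlw]
    exact h4

  · intro P hP hT
    rcases hsm P hP hT with h1 | h1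
    · left
      have h2 := 𝓛.small_bad (a := i₀) (x := φ (P i₀)) (X := 𝓛.φ ((lam i₀ : QA) * P i₀ + mu i₀))
        (hX P i₀) (by rw [hφ]; exact h1)
      exact (h2.trans_lt hp1).ne
    · right
      exact (h1.trans_lt hp1).ne
  · intro P hP hT j l hjl hje hle τ w' a b' c d' hdet hww hjτ hlw
    have key : ∃ a, ‖φ (P a)‖ ≤ ‖(p : C)‖ ∧ j ≠ a ∧ l ≠ a := by
      rcases hsm P hP hT with h1 | h1
      · refine ⟨i₀, 𝓛.small_bad (a := i₀) (x := φ (P i₀)) (X := 𝓛.φ ((lam i₀ : QA) * P i₀ + mu i₀))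
          (hX P i₀) (by rw [hφ]; exact h1), ?_⟩
        exact 𝓛.small_ne (X := fun i => (lam i : QA) * P i + mu i) (hPt P hP) (hX P)
          (by rw [hφ]; exact h1) hjl hdet hww hjτ hlw
      · exact ⟨e₀, h1, hje, hle⟩
    obtain ⟨a₀, h1, h2, h3⟩ := key
    obtain ⟨N', h4, h5, h6⟩ := hG₄ (fun i => (lam i : QA) * P i + mu i)
      (fun i => φ (P i)) (hPt P hP) (hX P) a₀ h1 j l h2 h3 τ w' a b' c d' hdet hww hjτ hlw
    refine ⟨N', h4, h5.trans (Nat.le_add_left G₄ _), ?_⟩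
    rw [← hjτ, ← hlw]
    exact h6

end Pool.Agent.Y226.ZE
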