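import Pool.Agent.Y226.ZM.Near
import Pool.Agent.Y237.SA.Sep

/-!
# Torsion points on elliptic curves with large `j`-invariant
-/

set_option autoImplicit false
set_option linter.unusedSectionVars false

open UpperHalfPlane H294ZP Polynomial

namespace Pool.Agent.Y226.ZE

open Pool.Agent.Y226 Pool.Agent.Y226.ZG Pool.Agent.Y226.ZM Pool.Agent.H901R3.MS Pool.Agent.Y237.SA
open WeierstrassCurve

/-- the coefficient of the curve with `j`-invariant `X` -/
noncomputable def co {F : Type} [Field F] (X : F) : F := -(27 * X) / (4 * (X - 1728))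

/-- the point with the abscissa `U` on the elliptic curve with `j`-invariant `X` is torsion -/
def TorsX (X U : ℂ) : Prop := ∃ (y : ℂ) (h : (CV (co X) (co X)).toAffine.Nonsingular U y),
  IsOfFinAddOrder (Affine.Point.some U y h)

theorem co_map {F L : Type} [Field F] [Field L] (f : F →+* L) (X : F) : f (co X) = co (f X) := by
  unfold co
  simp only [map_div₀, map_neg, map_mul, map_sub, map_ofNat]

theorem disc_co {L : Type} [Field L] [CharZero L] {X : L} (h0 : X ≠ 0) (h1 : X ≠ 1728) :
    Disc (co X) (co X) := by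
  unfold Disc co
  have h2 : X - 1728 ≠ 0 := sub_ne_zero.2 h1
  have e : (2 : L) * (4 * (-(27 * X) / (4 * (X - 1728))) ^ 3 + 27 * (-(27 * X) / (4 * (X - 1728))) ^ 2)
      = -(2 * 27 ^ 3 * 1728 * X ^ 2) / (16 * (X - 1728) ^ 3) := by
    field_simp
    ring
  rw [e, div_ne_zero_iff]
  refine ⟨?_, ?_⟩
  · rw [neg_ne_zero]
    have : (2 * 27 ^ 3 * 1728 : L) ≠ 0 := by norm_num
    exact mul_ne_zero this (pow_ne_zero 2 h0)
  · exact mul_ne_zero (by norm_num) (pow_ne_zero 3 h2)

/-- injective images of torsion points are torsion, conversely -/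
theorem TX_reflect {F L : Type} [Field F] [Field L] [iF : DecidableEq F] [iL : DecidableEq L]
    (φ : F →+* L) {A B : F} {A' B' : L} (hA : A' = φ A) (hB : B' = φ B)
    (hD : Disc A' B') {x y : F} (h : (CV A B).toAffine.Nonsingular x y) {y' : L} (hy : y' = φ y)
    (h' : (CV A' B').toAffine.Nonsingular (φ x) y') {n : ℕ}
    (hn : n • (Affine.Point.some (φ x) y' h' : Pt A' B') = 0) :
    n • (Affine.Point.some x y h : Pt A B) = 0 := by
  have h2 : (2 : L) ≠ 0 := fun h => hD (by rw [h, zero_mul])
  have e1 : iF = fun a b => Classical.propDecidable (a = b) := Subsingleton.elim _ _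
  have e2 : iL = fun a b => Classical.propDecidable (a = b) := Subsingleton.elim _ _
  subst e1
  subst e2
  subst hy
  classical
  have hA1 : A' = (1 : L) ^ 4 * φ A := by rw [one_pow, one_mul, hA]
  have hB1 : B' = (1 : L) ^ 6 * φ B := by rw [one_pow, one_mul, hB]
  apply gmap_inj φ one_ne_zero hA1 hB1 h2 hD
  rw [map_zero, map_nsmul]
  have h4 : gmap φ one_ne_zero hA1 hB1 h2 hD (Affine.Point.some x y h) =
      (Affine.Point.some (φ x) (φ y) h' : Pt A' B') := by
    rw [gmap_some]
    congr 1
    · rw [one_pow, mul_one]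
    · rw [one_pow, mul_one]
  rw [h4]
  exact hn

/-- a complex torsion point with algebraic abscissa is the image of an algebraic one -/
theorem tors_desc {X U : QA} (h0 : X ≠ 0) (h1 : X ≠ 1728) (h : TorsX (rA X) (rA U))
    {L : Type} [Field L] [CharZero L] [DecidableEq L] (f : QA →+* L) :
    f U ∈ TX (co (f X)) (co (f X)) := by
  classical
  obtain ⟨y, hns, hfin⟩ := h
  have hX0 : rA X ≠ 0 := (map_ne_zero rA).2 h0
  have hX1 : rA X ≠ 1728 := by
    intro h2
    apply h1
    apply rA.injective
    rw [h2, map_ofNat]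
  have heq : y ^ 2 = rA (U ^ 3 + co X * U + co X) := by
    have h2 := equation_iff.1 hns.1
    unfold Eqn at h2
    rw [h2]
    simp only [map_add, map_mul, map_pow, co_map]
  obtain ⟨y₀, hy₀⟩ : ∃ y₀ : QA, rA y₀ = y := by
    refine root_algebraic (g := Polynomial.X ^ 2 - Polynomial.C (U ^ 3 + co X * U + co X)) ?_ ?_
    · exact X_pow_sub_C_ne_zero (by norm_num) _
    · unfold ev
      simp only [Polynomial.map_sub, Polynomial.map_pow, Polynomial.map_X, Polynomial.map_C,
        eval_sub, eval_pow, eval_X, eval_C]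
      rw [heq, sub_self]
  have hD := disc_co h0 h1
  have hns₀ : (CV (co X) (co X)).toAffine.Nonsingular U y₀ := by
    rw [nonsingular_iff hD]
    unfold Eqn
    apply rA.injective
    rw [map_pow, hy₀, heq]
  -- the point is torsion
  obtain ⟨n, hn, hn0⟩ := isOfFinAddOrder_iff_nsmul_eq_zero.1 hfin
  have hDC : Disc (co (rA X)) (co (rA X)) := disc_co hX0 hX1
  have hkey : n • (Affine.Point.some U y₀ hns₀ : Pt (co X) (co X)) = 0 :=
    TX_reflect rA (co_map rA X).symm (co_map rA X).symm hDC hns₀ hy₀.symm hns hn0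
  have hmem : U ∈ TX (co X) (co X) := ⟨y₀, hns₀, n, hn, hkey⟩
  have hDL : Disc (co (f X)) (co (f X)) := by
    refine disc_co ((map_ne_zero f).2 h0) fun h2 => h1 (f.injective ?_)
    rw [h2, map_ofNat]
  have h5 := map_TX f (c := (1 : L)) one_ne_zero (A := co X) (B := co X) (A' := co (f X))
    (B' := co (f X)) (by rw [one_pow, one_mul, co_map]) (by rw [one_pow, one_mul, co_map]) hDL hmem
  rw [one_pow, mul_one] at h5
  exact h5

end Pool.Agent.Y226.ZE
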